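import Mathlib

namespace Pool.Agent.P.MP_fb3fae_co

open Set

abbrev E3 := EuclideanSpace ℝ (Fin 3)

/-- dot product in coordinates -/
def dt (x y : E3) : ℝ := x 0 * y 0 + x 1 * y 1 + x 2 * y 2

/-- cross product in coordinates -/
noncomputable def cr (x y : E3) : E3 :=
  !₂[x 1 * y 2 - x 2 * y 1, x 2 * y 0 - x 0 * y 2, x 0 * y 1 - x 1 * y 0]

/-- determinant of three vectors -/
def D (x y z : E3) : ℝ :=
  (x 1 * y 2 - x 2 * y 1) * z 0 + (x 2 * y 0 - x 0 * y 2) * z 1 + (x 0 * y 1 - x 1 * y 0) * z 2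

@[simp] lemma cr_0 (x y : E3) : cr x y 0 = x 1 * y 2 - x 2 * y 1 := by simp [cr]
@[simp] lemma cr_1 (x y : E3) : cr x y 1 = x 2 * y 0 - x 0 * y 2 := by simp [cr]
@[simp] lemma cr_2 (x y : E3) : cr x y 2 = x 0 * y 1 - x 1 * y 0 := by simp [cr]

lemma dt_cr (x y z : E3) : dt (cr x y) z = D x y z := by simp [dt, D]

lemma inner_eq_dt (x y : E3) : inner ℝ x y = dt x y := by
  simp [PiLp.inner_apply, Fin.sum_univ_three, dt]; ring

lemma norm_sq_eq_dt (x : E3) : ‖x‖ ^ 2 = dt x x := by
  rw [← real_inner_self_eq_norm_sq, inner_eq_dt]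

lemma ext3 {x y : E3} (h0 : x 0 = y 0) (h1 : x 1 = y 1) (h2 : x 2 = y 2) : x = y := by
  ext i; fin_cases i <;> simpa

lemma dt_self_nonneg (x : E3) : 0 ≤ dt x x := by rw [← norm_sq_eq_dt]; positivity

lemma dt_self_pos {x : E3} (h : x ≠ 0) : 0 < dt x x := by
  rw [← norm_sq_eq_dt]; exact pow_pos (norm_pos_iff.mpr h) 2

lemma cross_eq_D (x y z : E3) : crossProduct x.ofLp y.ofLp ⬝ᵥ z.ofLp = D x y z := by
  simp [crossProduct, dotProduct, Fin.sum_univ_three, D]

/-- a continuous linear functional in coordinates -/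
lemma exists_vec (l : StrongDual ℝ E3) : ∃ n : E3, ∀ x, l x = dt n x := by
  refine ⟨(InnerProductSpace.toDual ℝ E3).symm l, fun x => ?_⟩
  rw [← inner_eq_dt, InnerProductSpace.toDual_symm_apply]

lemma dt_sub (n x y : E3) : dt n (x - y) = dt n x - dt n y := by simp [dt]; ring

lemma dt_add (n x y : E3) : dt n (x + y) = dt n x + dt n y := by simp [dt]; ring

lemma dt_smul (n x : E3) (a : ℝ) : dt n (a • x) = a * dt n x := by simp [dt]; ring

/-- the set of maximisers of `dt n` on `P` -/
def Mx (P : Set E3) (n : E3) : Set E3 := {x ∈ P | ∀ y ∈ P, dt n y ≤ dt n x}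

lemma isExposed_Mx (P : Set E3) (n : E3) : IsExposed ℝ P (Mx P n) := by
  intro _
  refine ⟨innerSL ℝ n, ?_⟩
  simp only [Mx, innerSL_apply_apply, inner_eq_dt]

lemma IsExposed_eq_Mx {P F : Set E3} (h : IsExposed ℝ P F) (hF : F.Nonempty) :
    ∃ n, F = Mx P n := by
  obtain ⟨l, hl⟩ := h hF
  obtain ⟨n, hn⟩ := exists_vec l
  exact ⟨n, by rw [hl]; simp only [Mx, hn]⟩

lemma dt_le_of_hull {V : Set E3} {n : E3} {M : ℝ} (h : ∀ v ∈ V, dt n v ≤ M) :
    ∀ x ∈ convexHull ℝ V, dt n x ≤ M := by
  have hc : Convex ℝ {x : E3 | dt n x ≤ M} := by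
    intro x hx y hy a b ha hb hab
    simp only [mem_ofPred_eq, dt_add, dt_smul] at *
    have h1 := mul_le_mul_of_nonneg_left hx ha
    have h2 := mul_le_mul_of_nonneg_left hy hb
    have : a * M + b * M = M := by rw [← add_mul, hab, one_mul]
    linarith
  exact fun x hx => convexHull_min (fun v hv => h v hv) hc hx

/-- an exposed face of a convex hull is the hull of the active generators -/
lemma Mx_hull (V : Set E3) (n : E3) (hne : (Mx V n).Nonempty) :
    Mx (convexHull ℝ V) n = convexHull ℝ (Mx V n) := by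
  obtain ⟨v, hv, hvm⟩ := hne
  have hle := dt_le_of_hull hvm
  apply Subset.antisymm
  · rintro x ⟨hx, hxm⟩
    have hc : Convex ℝ {x : E3 | dt n x ≤ dt n v ∧
        (dt n x < dt n v ∨ x ∈ convexHull ℝ (Mx V n))} := by
      rintro x ⟨hx1, hx2⟩ y ⟨hy1, hy2⟩ a b ha hb hab
      simp only [mem_ofPred_eq, dt_add, dt_smul] at *
      have e : a * dt n v + b * dt n v = dt n v := by rw [← add_mul, hab, one_mul]
      have h1 := mul_le_mul_of_nonneg_left hx1 ha
      have h2 := mul_le_mul_of_nonneg_left hy1 hb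
      refine ⟨by linarith, ?_⟩
      rcases ha.eq_or_lt with rfl | ha'
      · have : b = 1 := by linarith
        subst this
        simpa using hy2
      rcases hb.eq_or_lt with rfl | hb'
      · have : a = 1 := by linarith
        subst this
        simpa using hx2
      rcases hx2 with hx2 | hx2
      · left
        have := mul_lt_mul_of_pos_left hx2 ha'
        linarith
      rcases hy2 with hy2 | hy2
      · left
        have := mul_lt_mul_of_pos_left hy2 hb'
        linarith
      right
      exact convex_convexHull ℝ _ hx2 hy2 ha hb hab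
    have hsub : V ⊆ {x : E3 | dt n x ≤ dt n v ∧
        (dt n x < dt n v ∨ x ∈ convexHull ℝ (Mx V n))} := by
      intro z hz
      refine ⟨hvm z hz, ?_⟩
      rcases (hvm z hz).eq_or_lt with h | h
      · right
        exact subset_convexHull ℝ _ ⟨hz, fun y hy => h ▸ hvm y hy⟩
      · left; exact h
    have := convexHull_min hsub hc hx
    rcases this.2 with h | h
    · exact absurd (hxm v (subset_convexHull ℝ _ hv)) (not_le.mpr h)
    · exact h
  · intro x hx
    refine ⟨convexHull_mono (fun z hz => hz.1) hx, fun y hy => ?_⟩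
    have h1 : ∀ z ∈ Mx V n, dt (-n) z ≤ - dt n v := by
      intro z hz
      have := hz.2 v hv
      simp only [dt, PiLp.neg_apply] at *
      linarith
    have h2 := dt_le_of_hull h1 x hx
    have h3 := hle y hy
    simp only [dt, PiLp.neg_apply] at *
    linarith

lemma vectorSpan_hull (S : Set E3) : vectorSpan ℝ (convexHull ℝ S) = vectorSpan ℝ S := by
  rw [← direction_affineSpan, affineSpan_convexHull, direction_affineSpan]

lemma finrank_le_one_of_subset_pair {S : Set E3} {Y Z : E3} (h : S ⊆ {Y, Z}) :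
    Module.finrank ℝ (vectorSpan ℝ (convexHull ℝ S)) ≤ 1 := by
  rw [vectorSpan_hull, ← collinear_iff_finrank_le_one]
  exact (collinear_pair ℝ Y Z).subset h

/-- a two dimensional hull of a subset of three points is the triangle -/
lemma hull_eq_tri {S : Set E3} {X Y Z : E3} (h : S ⊆ {X, Y, Z})
    (hd : Module.finrank ℝ (vectorSpan ℝ (convexHull ℝ S)) = 2) :
    convexHull ℝ S = convexHull ℝ {X, Y, Z} := by
  have hX : X ∈ S := by
    by_contra hX
    have : S ⊆ {Y, Z} := by
      intro s hs
      rcases h hs with rfl | h' | h'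
      · exact absurd hs hX
      · exact Or.inl h'
      · exact Or.inr h'
    have := finrank_le_one_of_subset_pair this
    omega
  have hY : Y ∈ S := by
    by_contra hY
    have : S ⊆ {X, Z} := by
      intro s hs
      rcases h hs with h' | rfl | h'
      · exact Or.inl h'
      · exact absurd hs hY
      · exact Or.inr h'
    have := finrank_le_one_of_subset_pair this
    omega
  have hZ : Z ∈ S := by
    by_contra hZ
    have : S ⊆ {X, Y} := by
      intro s hs
      rcases h hs with h' | h' | rfl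
      · exact Or.inl h'
      · exact Or.inr h'
      · exact absurd hs hZ
    have := finrank_le_one_of_subset_pair this
    omega
  congr 1
  apply Subset.antisymm h
  rintro s (rfl | rfl | rfl) <;> assumption

lemma nonempty_of_finrank {F : Set E3} (hd : Module.finrank ℝ (vectorSpan ℝ F) = 2) :
    F.Nonempty := by
  rcases F.eq_empty_or_nonempty with rfl | h
  · rw [vectorSpan_empty, finrank_bot] at hd
    omega
  · exact h

/-- three points with the same mutual distances differ by an isometry of space -/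
lemma exists_isometry {A B C X Y Z : E3} (h1 : dist A B = dist X Y) (h2 : dist B C = dist Y Z)
    (h3 : dist C A = dist Z X) :
    ∃ φ : E3 ≃ᵢ E3, φ A = X ∧ φ B = Y ∧ φ C = Z := by
  have n1 : ‖B - A‖ = ‖Y - X‖ := by
    rw [← dist_eq_norm, ← dist_eq_norm, dist_comm, h1, dist_comm]
  have n3 : ‖C - A‖ = ‖Z - X‖ := by
    rw [← dist_eq_norm, ← dist_eq_norm, h3]
  have n2 : ‖(B - A) - (C - A)‖ = ‖(Y - X) - (Z - X)‖ := by
    rw [sub_sub_sub_cancel_right, sub_sub_sub_cancel_right, ← dist_eq_norm, ← dist_eq_norm, h2]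
  have hin : inner ℝ (B - A) (C - A) = inner ℝ (Y - X) (Z - X) := by
    rw [real_inner_eq_norm_mul_self_add_norm_mul_self_sub_norm_sub_mul_self_div_two,
      real_inner_eq_norm_mul_self_add_norm_mul_self_sub_norm_sub_mul_self_div_two, n1, n2, n3]
  set u := B - A
  set v := C - A
  set u' := Y - X
  set v' := Z - X
  let R1 : E3 ≃ₗᵢ[ℝ] E3 := (ℝ ∙ (u - u'))ᗮ.reflection
  have hR1 : R1 u = u' := Submodule.reflection_sub n1
  have n4 : ‖R1 v‖ = ‖v'‖ := by rw [R1.norm_map, n3]
  let R2 : E3 ≃ₗᵢ[ℝ] E3 := (ℝ ∙ (R1 v - v'))ᗮ.reflection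
  have hR2 : R2 (R1 v) = v' := Submodule.reflection_sub n4
  have hR2' : R2 u' = u' := by
    apply Submodule.reflection_mem_subspace_eq_self
    rw [Submodule.mem_orthogonal_singleton_iff_inner_left, inner_sub_right, ← hin, ← hR1,
      R1.inner_map_map, sub_self]
  refine ⟨((IsometryEquiv.subRight A).trans (R1.trans R2).toIsometryEquiv).trans
    (IsometryEquiv.addRight X), ?_, ?_, ?_⟩
  · simp
  · change R2 (R1 u) + X = Y
    rw [hR1, hR2']; simp [u']
  · change R2 (R1 v) + X = Z
    rw [hR2]; simp [v']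

lemma image_tri (φ : E3 ≃ᵢ E3) (A B C : E3) :
    φ '' convexHull ℝ {A, B, C} = convexHull ℝ {φ A, φ B, φ C} := by
  have := (φ.toRealAffineIsometryEquiv.toAffineEquiv.toAffineMap).image_convexHull {A, B, C}
  simpa [image_insert_eq] using this

lemma cr_ne_zero_of_affineIndependent {A B C : E3} (h : AffineIndependent ℝ ![A, B, C]) :
    cr (B - A) (C - A) ≠ 0 := by
  intro h0
  rw [affineIndependent_iff_not_collinear_set] at h
  apply h
  by_cases hB : B - A = 0
  · have : B = A := sub_eq_zero.mp hB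
    subst this
    simpa using collinear_pair ℝ B C
  have hp := dt_self_pos hB
  rw [collinear_iff_of_mem (p₀ := A) (by simp)]
  refine ⟨B - A, ?_⟩
  rintro p (rfl | rfl | rfl)
  · exact ⟨0, by simp⟩
  · exact ⟨1, by simp⟩
  · refine ⟨dt (B - A) (p - A) / dt (B - A) (B - A), ?_⟩
    have e0 : cr (B - A) (p - A) 0 = 0 := by rw [h0]; rfl
    have e1 : cr (B - A) (p - A) 1 = 0 := by rw [h0]; rfl
    have e2 : cr (B - A) (p - A) 2 = 0 := by rw [h0]; rfl
    simp only [cr_0, cr_1, cr_2] at e0 e1 e2
    rw [vadd_eq_add, ← sub_eq_iff_eq_add]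
    set u := B - A
    set w := p - A
    apply ext3 <;> simp only [PiLp.smul_apply, smul_eq_mul] <;> field_simp <;> unfold dt
    · linear_combination (u 2) * e1 - (u 1) * e2
    · linear_combination (u 0) * e2 - (u 2) * e0
    · linear_combination (u 1) * e0 - (u 0) * e1

end Pool.Agent.P.MP_fb3fae_co
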