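import Pool.Agent.P.MP_fb3fae_co.Corner

namespace Pool.Agent.P.MP_fb3fae_co

open Set InnerProductGeometry
open scoped NNReal

lemma ang_cone {x y z : E3} (hy : y ≠ 0) {a b : ℝ} (ha : 0 ≤ a) (hb : 0 ≤ b)
    (e : y = a • x + b • z) : angle x z = angle x y + angle y z := by
  apply angle_eq_angle_add_add_angle_add_of_mem_span hy
  rw [Submodule.mem_span_pair]
  exact ⟨⟨a, ha⟩, ⟨b, hb⟩, e.symm⟩

/-- exit direction of the edge `b c` through the plane of `x1 x2` -/
noncomputable def W (x1 x2 b c : E3) : E3 := (-D b c x2) • x1 - (-D b c x1) • x2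

lemma W_eq (x1 x2 b c : E3) : W x1 x2 b c = (-D x1 x2 b) • c - (-D x1 x2 c) • b := by
  apply ext3 <;> simp [W, D] <;> ring

lemma W_ne {x1 x2 b c : E3} (hb : D x1 x2 b < 0) (hn : cr b c ≠ 0) : W x1 x2 b c ≠ 0 := by
  intro h
  rw [W_eq] at h
  have : (D x1 x2 c) • b + (-D x1 x2 b) • c = 0 := by
    rw [← h]; apply ext3 <;> simp <;> ring
  have := (coef_zero hn this).2
  linarith

lemma stepA {x1 x2 b c : E3} (hb : D x1 x2 b < 0) (hc : D x1 x2 c ≤ 0) (hn : cr b c ≠ 0) :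
    angle b (W x1 x2 b c) = angle b c + angle c (W x1 x2 b c) := by
  have hb' : 0 < -D x1 x2 b := by linarith
  apply ang_cone (ne_zero_right hn) (a := (-D x1 x2 c) / (-D x1 x2 b)) (b := 1 / (-D x1 x2 b))
    (div_nonneg (by linarith) hb'.le) (by positivity)
  rw [W_eq]
  have := hb.ne
  apply ext3 <;> simp <;> field_simp <;> ring

lemma stepB {x1 x2 a b c : E3} (h1 : W x1 x2 a b ≠ 0) (h2 : W x1 x2 b c ≠ 0)
    (a1 : D a b x1 ≤ 0) (a2 : D a b x2 ≤ 0) (b1 : D b c x1 ≤ 0) (b2 : D b c x2 ≤ 0)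
    (habc : D a b c ≤ 0) (hb : D x1 x2 b ≤ 0) :
    angle (W x1 x2 a b) x1 = angle (W x1 x2 a b) (W x1 x2 b c) + angle (W x1 x2 b c) x1 := by
  have pl : D b c x2 * D a b x1 - D a b x2 * D b c x1 = D a b c * D x1 x2 b := by
    simp only [D]; ring
  have pl' : 0 ≤ D b c x2 * D a b x1 - D a b x2 * D b c x1 := by
    rw [pl]; exact mul_nonneg_of_nonpos_of_nonpos habc hb
  unfold W at *
  generalize D a b x1 = t at *
  generalize D a b x2 = s at *
  generalize D b c x1 = t' at *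
  generalize D b c x2 = s' at *
  rcases a1.eq_or_lt with rfl | ht
  · have hs : s ≠ 0 := by
      rintro rfl
      simp at h1
    have hs' : s < 0 := lt_of_le_of_ne a2 hs
    have ht' : t' = 0 := by
      by_contra hc
      have := mul_pos_of_neg_of_neg hs' (lt_of_le_of_ne b1 hc)
      linarith
    subst ht'
    apply ang_cone h2 (a := 0) (b := -s') le_rfl (by linarith)
    simp
  · apply ang_cone h2 (a := t' / t) (b := (s' * t - s * t') / (-t))
      (div_nonneg_of_nonpos b1 ht.le) (div_nonneg pl' (by linarith))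
    have := ht.ne
    apply ext3 <;> simp <;> field_simp <;> ring

/-- six consecutive face angles at a vertex of a convex cone have sum below `2π` -/
lemma chain6 {x1 x2 x3 x4 x5 x6 x7 : E3}
    (h3 : D x1 x2 x3 < 0) (h4 : D x1 x2 x4 < 0) (h5 : D x1 x2 x5 < 0) (h6 : D x1 x2 x6 < 0)
    (h7 : D x1 x2 x7 ≤ 0)
    (n3 : cr x3 x4 ≠ 0) (n4 : cr x4 x5 ≠ 0) (n5 : cr x5 x6 ≠ 0) (n6 : cr x6 x7 ≠ 0)
    (a3 : D x3 x4 x1 ≤ 0) (a4 : D x4 x5 x1 ≤ 0) (a5 : D x5 x6 x1 ≤ 0) (a6 : D x6 x7 x1 ≤ 0)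
    (b4 : D x4 x5 x2 ≤ 0) (b5 : D x5 x6 x2 ≤ 0) (b6 : D x6 x7 x2 ≤ 0)
    (c2 : D x2 x3 x4 < 0) (c3 : D x3 x4 x5 ≤ 0) (c4 : D x4 x5 x6 ≤ 0) (c5 : D x5 x6 x7 ≤ 0) :
    angle x1 x2 + angle x2 x3 + angle x3 x4 + angle x4 x5 + angle x5 x6 + angle x6 x7
      < 2 * Real.pi := by
  have b3 : D x3 x4 x2 < 0 := by
    have : D x3 x4 x2 = D x2 x3 x4 := by simp only [D]; ring
    linarith
  have a2 : D x2 x3 x1 < 0 := by
    have : D x2 x3 x1 = D x1 x2 x3 := by simp only [D]; ring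
    linarith
  have b2 : D x2 x3 x2 = 0 := by simp only [D]; ring
  have hx2 : x2 ≠ 0 := by
    rintro rfl
    simp [D] at h3
  have w2 : W x1 x2 x2 x3 = (-D x2 x3 x1) • (-x2) := by
    simp [W, b2]
  have w2n : W x1 x2 x2 x3 ≠ 0 := by
    rw [w2]
    exact smul_ne_zero (by linarith) (neg_ne_zero.mpr hx2)
  have w3n := W_ne h3 n3
  have w4n := W_ne h4 n4
  have w5n := W_ne h5 n5
  have w6n := W_ne h6 n6
  have e1 : angle x3 (W x1 x2 x2 x3) = Real.pi - angle x2 x3 := by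
    rw [w2, angle_smul_right_of_pos _ _ (by linarith), angle_neg_right, angle_comm]
  have e2 : angle (W x1 x2 x2 x3) x1 = Real.pi - angle x1 x2 := by
    rw [w2, angle_smul_left_of_pos _ _ (by linarith), angle_neg_left, angle_comm]
  have A3 := stepA h3 h4.le n3
  have A4 := stepA h4 h5.le n4
  have A5 := stepA h5 h6.le n5
  have A6 := stepA h6 h7 n6
  have B2 := stepB w2n w3n a2.le b2.le a3 b3.le c2.le h3.le
  have B3 := stepB w3n w4n a3 b3.le a4 b4 c3 h4.le
  have B4 := stepB w4n w5n a4 b4 a5 b5 c4 h5.le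
  have B5 := stepB w5n w6n a5 b5 a6 b6 c5 h6.le
  have T4 := angle_le_angle_add_angle x4 (W x1 x2 x3 x4) (W x1 x2 x4 x5)
  have T5 := angle_le_angle_add_angle x5 (W x1 x2 x4 x5) (W x1 x2 x5 x6)
  have T6 := angle_le_angle_add_angle x6 (W x1 x2 x5 x6) (W x1 x2 x6 x7)
  have P1 := angle_nonneg x7 (W x1 x2 x6 x7)
  have P2 := angle_nonneg (W x1 x2 x6 x7) x1
  have T3 : angle x3 (W x1 x2 x3 x4)
      < angle x3 (W x1 x2 x2 x3) + angle (W x1 x2 x2 x3) (W x1 x2 x3 x4) := by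
    refine lt_of_le_of_ne (angle_le_angle_add_angle _ _ _) ?_
    intro heq
    have hD : ∀ u v : E3, D x1 x2 (W x1 x2 u v) = 0 := by
      intro u v; simp [W, D]; ring
    rcases (angle_eq_angle_add_angle_iff w2n).mp heq with h | h
    · obtain ⟨-, r, hr, e⟩ := angle_eq_pi_iff.mp h
      have e3 := hD x3 x4
      rw [e] at e3
      have : D x1 x2 (r • x3) = r * D x1 x2 x3 := by simp [D]; ring
      rw [this] at e3
      have := mul_pos_of_neg_of_neg hr h3
      linarith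
    · obtain ⟨a, b, e⟩ := Submodule.mem_span_pair.mp h
      rw [NNReal.smul_def, NNReal.smul_def] at e
      have f1 : D x1 x2 ((a : ℝ) • x3 + (b : ℝ) • W x1 x2 x3 x4)
          = a * D x1 x2 x3 + b * D x1 x2 (W x1 x2 x3 x4) := by simp [D]; ring
      rw [e, hD, hD] at f1
      have ha : (a : ℝ) = 0 := by
        have : (a : ℝ) * D x1 x2 x3 = 0 := by linarith
        rcases mul_eq_zero.mp this with h | h
        · exact h
        · linarith
      rw [ha, zero_smul, zero_add] at e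
      have f2 : D x2 x3 ((b : ℝ) • W x1 x2 x3 x4) = b * (- D x3 x4 x2 * D x2 x3 x1) := by
        simp [W, D]; ring
      have f3 : D x2 x3 (W x1 x2 x2 x3) = 0 := by
        simp [W, D]; ring
      rw [e, f3] at f2
      have hb : (b : ℝ) = 0 := by
        rcases mul_eq_zero.mp f2.symm with h | h
        · exact h
        · have := mul_pos_of_neg_of_neg b3 a2
          linarith
      rw [hb, zero_smul] at e
      exact w2n e.symm
  linarith

lemma angle_congr {x y x' y' : E3} (h1 : ‖x‖ = ‖x'‖) (h2 : ‖y‖ = ‖y'‖)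
    (h3 : ‖x - y‖ = ‖x' - y'‖) : angle x y = angle x' y' := by
  unfold angle
  rw [real_inner_eq_norm_mul_self_add_norm_mul_self_sub_norm_sub_mul_self_div_two,
    real_inner_eq_norm_mul_self_add_norm_mul_self_sub_norm_sub_mul_self_div_two, h1, h2, h3]

lemma three_angles {x1 x2 x3 x4 : E3} (h2 : x2 ≠ 0) (e3 : ‖x3‖ = ‖x1 - x2‖)
    (e23 : ‖x2 - x3‖ = ‖x1‖) (e4 : ‖x4‖ = ‖x1‖) (e34 : ‖x3 - x4‖ = ‖x2‖) :
    angle x1 x2 + angle x2 x3 + angle x3 x4 = Real.pi := by
  have h := angle_add_angle_sub_add_angle_sub_eq_pi x1 h2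
  have f1 : angle x2 x3 = angle x2 (x2 - x1) := by
    apply angle_congr rfl
    · rw [e3, norm_sub_rev]
    · rw [e23]; simp
  have f2 : angle x3 x4 = angle x1 (x1 - x2) := by
    rw [angle_comm x1]
    apply angle_congr e3 e4
    rw [e34]; simp
  linarith

end Pool.Agent.P.MP_fb3fae_co
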