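import Pool.Agent.P.MP_fb3fae_co.Scal

namespace Pool.Agent.P.MP_fb3fae_co

open Set

lemma mem_tri_iff {v p q x : E3} : x ∈ convexHull ℝ ({v, p, q} : Set E3) ↔
    ∃ b c : ℝ, 0 ≤ b ∧ 0 ≤ c ∧ b + c ≤ 1 ∧ x = v + b • (p - v) + c • (q - v) := by
  constructor
  · intro hx
    have hc : Convex ℝ {x : E3 | ∃ b c : ℝ, 0 ≤ b ∧ 0 ≤ c ∧ b + c ≤ 1 ∧
        x = v + b • (p - v) + c • (q - v)} := by
      rintro x ⟨b1, c1, hb1, hc1, h1, rfl⟩ y ⟨b2, c2, hb2, hc2, h2, rfl⟩ s t hs ht hst
      refine ⟨s * b1 + t * b2, s * c1 + t * c2, by positivity, by positivity, ?_, ?_⟩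
      · nlinarith [mul_le_mul_of_nonneg_left h1 hs, mul_le_mul_of_nonneg_left h2 ht]
      · have : t = 1 - s := by linarith
        subst this
        apply ext3 <;> simp <;> ring
    refine convexHull_min ?_ hc hx
    rintro y (rfl | rfl | rfl)
    · exact ⟨0, 0, le_rfl, le_rfl, by norm_num, by simp⟩
    · exact ⟨1, 0, by norm_num, le_rfl, by norm_num, by simp⟩
    · exact ⟨0, 1, le_rfl, by norm_num, by norm_num, by simp⟩
  · rintro ⟨b, c, hb, hc, hbc, rfl⟩
    have h := (convex_convexHull ℝ ({v, p, q} : Set E3)).sum_mem (t := (Finset.univ : Finset (Fin 3)))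
      (w := ![1 - b - c, b, c]) (z := ![v, p, q])
      (by intro i _; fin_cases i <;> simp <;> linarith)
      (by simp only [Fin.sum_univ_three]; simp; ring)
      (by intro i _; apply subset_convexHull; fin_cases i <;> simp)
    convert h using 1
    apply ext3 <;> simp [Fin.sum_univ_three] <;> ring

lemma coef_zero {u w : E3} (h : cr u w ≠ 0) {s t : ℝ} (e : s • u + t • w = 0) : s = 0 ∧ t = 0 := by
  have e0 : s * u 0 + t * w 0 = 0 := by simpa using congrArg (fun x : E3 => x 0) e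
  have e1 : s * u 1 + t * w 1 = 0 := by simpa using congrArg (fun x : E3 => x 1) e
  have e2 : s * u 2 + t * w 2 = 0 := by simpa using congrArg (fun x : E3 => x 2) e
  constructor
  · by_contra hs
    apply h
    apply ext3 <;> simp only [cr_0, cr_1, cr_2, PiLp.zero_apply] <;> apply mul_left_cancel₀ hs
    · linear_combination (w 2) * e1 - (w 1) * e2
    · linear_combination (w 0) * e2 - (w 2) * e0
    · linear_combination (w 1) * e0 - (w 0) * e1
  · by_contra ht
    apply h
    apply ext3 <;> simp only [cr_0, cr_1, cr_2, PiLp.zero_apply] <;> apply mul_left_cancel₀ ht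
    · linear_combination (u 1) * e2 - (u 2) * e1
    · linear_combination (u 2) * e0 - (u 0) * e2
    · linear_combination (u 0) * e1 - (u 1) * e0

lemma vertex_extreme {v p q : E3} (h : cr (p - v) (q - v) ≠ 0) :
    v ∈ (convexHull ℝ ({v, p, q} : Set E3)).extremePoints ℝ := by
  refine ⟨subset_convexHull ℝ _ (by simp), ?_⟩
  rintro x1 hx1 x2 hx2 ⟨s, t, hs, ht, hst, e⟩
  obtain ⟨b1, c1, hb1, hc1, -, rfl⟩ := mem_tri_iff.mp hx1
  obtain ⟨b2, c2, hb2, hc2, -, rfl⟩ := mem_tri_iff.mp hx2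
  have e' : (s * b1 + t * b2) • (p - v) + (s * c1 + t * c2) • (q - v) = 0 := by
    have ht' : t = 1 - s := by linarith
    subst ht'
    rw [← sub_eq_zero] at e
    rw [← e]
    apply ext3 <;> simp <;> ring
  obtain ⟨f1, f2⟩ := coef_zero h e'
  have g1 : b1 = 0 := by
    have := mul_nonneg ht.le hb2
    have h3 : s * b1 = 0 := le_antisymm (by linarith) (mul_nonneg hs.le hb1)
    rcases mul_eq_zero.mp h3 with h4 | h4
    · linarith
    · exact h4
  have g2 : c1 = 0 := by
    have := mul_nonneg ht.le hc2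
    have h3 : s * c1 = 0 := le_antisymm (by linarith) (mul_nonneg hs.le hc1)
    rcases mul_eq_zero.mp h3 with h4 | h4
    · linarith
    · exact h4
  simp [g1, g2]

lemma tri_rot (v p q : E3) : ({v, p, q} : Set E3) = {p, q, v} := by
  ext x; simp only [mem_insert_iff, mem_singleton_iff]; tauto

lemma D_rot (v p q x : E3) : D (q - p) (v - p) (x - p) = D (p - v) (q - v) (x - v) := by
  simp [D]; ring

/-- `v p q` is a nondegenerate face of `P`, counterclockwise seen from outside. -/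
structure OFace (P : Set E3) (v p q : E3) : Prop where
  nd : cr (p - v) (q - v) ≠ 0
  ex : IsExposed ℝ P (convexHull ℝ {v, p, q})
  le : ∀ x ∈ P, D (p - v) (q - v) (x - v) ≤ 0

lemma OFace.rot {P : Set E3} {v p q : E3} (h : OFace P v p q) : OFace P p q v :=
  ⟨by rw [cr_rot]; exact h.nd, by rw [← tri_rot]; exact h.ex,
    fun x hx => by rw [D_rot]; exact h.le x hx⟩

lemma OFace.mem {P : Set E3} {v p q : E3} (h : OFace P v p q) : v ∈ P :=
  h.ex.subset (subset_convexHull ℝ _ (by simp))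

lemma OFace.extreme {P : Set E3} {v p q : E3} (h : OFace P v p q) : v ∈ P.extremePoints ℝ :=
  h.ex.isExtreme.extremePoints_subset_extremePoints (vertex_extreme h.nd)

/-- the basic identity for a functional vanishing on `u` and `w` -/
lemma key_identity {n u w : E3} (hu : dt n u = 0) (hw : dt n w = 0) (x : E3) :
    dt n x * dt (cr u w) (cr u w) = dt n (cr u w) * D u w x := by
  simp only [dt, D, cr_0, cr_1, cr_2] at *
  linear_combination
    (u 0 * (x 1 * (u 0 * w 1 - u 1 * w 0) - x 2 * (u 2 * w 0 - u 0 * w 2))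
      + u 1 * (x 2 * (u 1 * w 2 - u 2 * w 1) - x 0 * (u 0 * w 1 - u 1 * w 0))
      + u 2 * (x 0 * (u 2 * w 0 - u 0 * w 2) - x 1 * (u 1 * w 2 - u 2 * w 1))) * hw
    - (w 0 * (x 1 * (u 0 * w 1 - u 1 * w 0) - x 2 * (u 2 * w 0 - u 0 * w 2))
      + w 1 * (x 2 * (u 1 * w 2 - u 2 * w 1) - x 0 * (u 0 * w 1 - u 1 * w 0))
      + w 2 * (x 0 * (u 2 * w 0 - u 0 * w 2) - x 1 * (u 1 * w 2 - u 2 * w 1))) * hu

lemma Mx_tri {P : Set E3} {v p q n : E3} (hn : convexHull ℝ {v, p, q} = Mx P n) :
    v ∈ Mx P n ∧ dt n (p - v) = 0 ∧ dt n (q - v) = 0 := by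
  have hv : v ∈ Mx P n := hn ▸ subset_convexHull ℝ _ (by simp)
  have hp : p ∈ Mx P n := hn ▸ subset_convexHull ℝ _ (by simp)
  have hq : q ∈ Mx P n := hn ▸ subset_convexHull ℝ _ (by simp)
  refine ⟨hv, ?_, ?_⟩
  · rw [dt_sub]; linarith [hv.2 p hp.1, hp.2 v hv.1]
  · rw [dt_sub]; linarith [hv.2 q hq.1, hq.2 v hv.1]

lemma OFace.mem_of_D {P : Set E3} {v p q : E3} (h : OFace P v p q) {x : E3} (hx : x ∈ P)
    (h0 : D (p - v) (q - v) (x - v) = 0) : x ∈ convexHull ℝ ({v, p, q} : Set E3) := by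
  obtain ⟨n, hn⟩ := IsExposed_eq_Mx h.ex ⟨v, subset_convexHull ℝ _ (by simp)⟩
  obtain ⟨hv, hp, hq⟩ := Mx_tri hn
  have e := key_identity hp hq (x - v)
  rw [h0, mul_zero] at e
  have e2 : dt n (x - v) = 0 := by
    rcases mul_eq_zero.mp e with e | e
    · exact e
    · exact absurd e (dt_self_pos h.nd).ne'
  rw [hn]
  refine ⟨hx, fun y hy => ?_⟩
  rw [dt_sub] at e2
  linarith [hv.2 y hy]

lemma OFace.vertex_of_D {P : Set E3} {v p q : E3} (h : OFace P v p q) {x : E3}
    (hx : x ∈ P.extremePoints ℝ) (h0 : D (p - v) (q - v) (x - v) = 0) :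
    x = v ∨ x = p ∨ x = q := by
  have h1 := h.mem_of_D hx.1 h0
  have h2 := inter_extremePoints_subset_extremePoints_of_subset (𝕜 := ℝ) h.ex.subset ⟨h1, hx⟩
  have h3 : x ∈ ({v, p, q} : Set E3) := extremePoints_convexHull_subset h2
  simpa using h3

/-- a nondegenerate exposed triangle has one of the two orientations -/
lemma oface_or {P : Set E3} {v p q n : E3} (hnd : cr (p - v) (q - v) ≠ 0) (hn0 : n ≠ 0)
    (hn : convexHull ℝ {v, p, q} = Mx P n) :
    (∀ x ∈ P, D (p - v) (q - v) (x - v) ≤ 0) ∨ (∀ x ∈ P, D (q - v) (p - v) (x - v) ≤ 0) := by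
  obtain ⟨hv, hp, hq⟩ := Mx_tri hn
  have hc := dt_self_pos hnd
  have hk : dt n (cr (p - v) (q - v)) ≠ 0 := by
    intro hk
    have e := key_identity hp hq n
    rw [hk, zero_mul] at e
    exact absurd e (mul_pos (dt_self_pos hn0) hc).ne'
  have hle : ∀ x ∈ P, dt n (cr (p - v) (q - v)) * D (p - v) (q - v) (x - v) ≤ 0 := by
    intro x hx
    rw [← key_identity hp hq]
    have : dt n (x - v) ≤ 0 := by rw [dt_sub]; linarith [hv.2 x hx]
    exact mul_nonpos_of_nonpos_of_nonneg this hc.le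
  rcases lt_or_gt_of_ne hk with hk | hk
  · right
    intro x hx
    have e : D (q - v) (p - v) (x - v) = - D (p - v) (q - v) (x - v) := by simp [D]; ring
    rw [e]
    by_contra hc
    have : D (p - v) (q - v) (x - v) < 0 := by linarith
    have := mul_pos_of_neg_of_neg hk this
    linarith [hle x hx]
  · left
    intro x hx
    by_contra hc
    have := mul_pos hk (not_le.mp hc)
    linarith [hle x hx]

/-- dimension of an exposed set containing a nondegenerate triangle -/
lemma finrank_Mx {P : Set E3} {n v q r : E3} (hn : n ≠ 0) (hv : v ∈ Mx P n) (hq : q ∈ Mx P n)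
    (hr : r ∈ Mx P n) (hnd : cr (q - v) (r - v) ≠ 0) :
    Module.finrank ℝ (vectorSpan ℝ (Mx P n)) = 2 := by
  apply le_antisymm
  · have h1 : vectorSpan ℝ (Mx P n) ≤ (ℝ ∙ n)ᗮ := by
      rw [vectorSpan_eq_span_vsub_set_right ℝ hv, Submodule.span_le]
      rintro _ ⟨x, hx, rfl⟩
      simp only [SetLike.mem_coe]
      rw [Submodule.mem_orthogonal_singleton_iff_inner_right, inner_eq_dt, vsub_eq_sub, dt_sub]
      linarith [hv.2 x hx.1, hx.2 v hv.1]
    have h2 : Module.finrank ℝ (ℝ ∙ n)ᗮ = 2 := by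
      have := Submodule.finrank_add_finrank_orthogonal (ℝ ∙ n)
      rw [finrank_span_singleton hn] at this
      simp at this
      omega
    exact h2 ▸ Submodule.finrank_mono h1
  · have hli : LinearIndependent ℝ ![q - v, r - v] := by
      rw [LinearIndependent.pair_iff]
      intro s t e
      exact coef_zero hnd e
    have h1 : Submodule.span ℝ (range ![q - v, r - v]) ≤ vectorSpan ℝ (Mx P n) := by
      rw [Submodule.span_le]
      rintro _ ⟨i, rfl⟩
      fin_cases i
      · exact vsub_mem_vectorSpan ℝ hq hv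
      · exact vsub_mem_vectorSpan ℝ hr hv
    have h2 := finrank_span_eq_card hli
    simp only [Fintype.card_fin] at h2
    have h3 := Submodule.finrank_mono h1
    omega

/-- rotating a supporting plane until it meets a new generator -/
lemma rotate {V : Set E3} (hV : V.Finite) (n m v : E3) (hl : ∀ z ∈ V, dt n (z - v) ≤ 0)
    (hm : ∀ z ∈ V, dt n (z - v) = 0 → dt m (z - v) ≤ 0) (hex : ∃ z ∈ V, dt n (z - v) ≠ 0) :
    ∃ μ : ℝ, (∀ z ∈ V, dt (m + μ • n) (z - v) ≤ 0) ∧
      ∃ z ∈ V, dt n (z - v) < 0 ∧ dt (m + μ • n) (z - v) = 0 := by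
  have e : ∀ (μ : ℝ) (w : E3), dt (m + μ • n) w = dt m w + μ * dt n w := by
    intro μ w; simp [dt]; ring
  obtain ⟨z0, hz0, hz0'⟩ := hex
  obtain ⟨z, ⟨hz, hzn⟩, hmax⟩ := Set.exists_max_image {z ∈ V | dt n (z - v) < 0}
    (fun z => dt m (z - v) / (- dt n (z - v))) (hV.subset (fun _ h => h.1))
    ⟨z0, hz0, lt_of_le_of_ne (hl z0 hz0) hz0'⟩
  refine ⟨dt m (z - v) / (- dt n (z - v)), fun y hy => ?_, z, hz, hzn, ?_⟩
  · rw [e]
    rcases (hl y hy).eq_or_lt with h | h
    · rw [h]; simpa using hm y hy h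
    · have := hmax y ⟨hy, h⟩
      rw [div_le_iff₀ (by linarith)] at this
      linarith
  · rw [e]
    have : dt n (z - v) ≠ 0 := hzn.ne
    field_simp
    ring

lemma mem_Mx_hull {V : Set E3} {n v x : E3} (hl : ∀ z ∈ V, dt n (z - v) ≤ 0)
    (hx : x ∈ convexHull ℝ V) (h0 : dt n (x - v) = 0) : x ∈ Mx (convexHull ℝ V) n := by
  refine ⟨hx, fun y hy => ?_⟩
  have := dt_le_of_hull (V := V) (n := n) (M := dt n v)
    (fun z hz => by have := hl z hz; rw [dt_sub] at this; linarith) y hy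
  rw [dt_sub] at h0
  linarith

lemma not_flat {V : Set E3} (hi : (interior (convexHull ℝ V)).Nonempty) {n : E3} (hn : n ≠ 0)
    (v : E3) : ∃ z ∈ V, dt n (z - v) ≠ 0 := by
  by_contra hc
  push Not at hc
  have h1 := dt_le_of_hull (V := V) (n := n) (M := dt n v)
    (fun z hz => by have := hc z hz; rw [dt_sub] at this; linarith)
  have h2 := dt_le_of_hull (V := V) (n := -n) (M := - dt n v)
    (fun z hz => by
      have := hc z hz
      rw [dt_sub] at this
      simp only [dt, PiLp.neg_apply] at *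
      linarith)
  obtain ⟨x, hx⟩ := hi
  rw [mem_interior_iff_mem_nhds, Metric.mem_nhds_iff] at hx
  obtain ⟨ε, hε, hsub⟩ := hx
  have hnp : 0 < ‖n‖ := norm_pos_iff.mpr hn
  have a1 : x ∈ convexHull ℝ V := hsub (Metric.mem_ball_self hε)
  have a2 : x + (ε / (2 * ‖n‖)) • n ∈ convexHull ℝ V := by
    apply hsub
    rw [Metric.mem_ball, dist_eq_norm, add_sub_cancel_left, norm_smul, Real.norm_eq_abs,
      abs_of_pos (by positivity)]
    field_simp
    linarith
  have b1 := h2 x a1
  have b2 := h1 _ a2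
  rw [dt_add, dt_smul] at b2
  have b3 : 0 < ε / (2 * ‖n‖) * dt n n := mul_pos (by positivity) (dt_self_pos hn)
  simp only [dt, PiLp.neg_apply] at *
  linarith

/-- a polytope with interior points has a two dimensional face -/
lemma exists_face {V : Set E3} (hV : V.Finite) (hi : (interior (convexHull ℝ V)).Nonempty) :
    ∃ F, IsExposed ℝ (convexHull ℝ V) F ∧ Module.finrank ℝ (vectorSpan ℝ F) = 2 := by
  have hne : V.Nonempty := by
    obtain ⟨x, hx⟩ := hi
    exact convexHull_nonempty_iff.mp ⟨x, interior_subset hx⟩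
  have step1 : ∃ n v q : E3, n ≠ 0 ∧ v ∈ V ∧ q ∈ V ∧ q - v ≠ 0 ∧ dt n (q - v) = 0 ∧
      ∀ z ∈ V, dt n (z - v) ≤ 0 := by
    set e0 : E3 := !₂[1, 0, 0] with he0
    have h0 : e0 ≠ 0 := by
      intro h
      have := congrArg (fun x : E3 => x 0) h
      simp [he0] at this
    obtain ⟨v, hv, hvm⟩ := Set.exists_max_image V (dt e0) hV hne
    have hl : ∀ z ∈ V, dt e0 (z - v) ≤ 0 := fun z hz => by rw [dt_sub]; linarith [hvm z hz]
    by_cases hq : ∃ q ∈ V, q - v ≠ 0 ∧ dt e0 (q - v) = 0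
    · obtain ⟨q, hq, h1, h2⟩ := hq
      exact ⟨e0, v, q, h0, hv, hq, h1, h2, hl⟩
    · push Not at hq
      obtain ⟨μ, h1, z, hz, h2, h3⟩ := rotate hV e0 (!₂[0, 1, 0]) v hl
        (fun z hz h => by
          have : z - v = 0 := by
            by_contra hc
            exact hq z hz hc h
          rw [this]; simp [dt]) (not_flat hi h0 v)
      refine ⟨_, v, z, ?_, hv, hz, ?_, h3, h1⟩
      · intro h
        have := congrArg (fun x : E3 => x 1) h
        simp [he0] at this
      · intro h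
        rw [h] at h2
        simp [dt] at h2
  obtain ⟨n, v, q, hn, hv, hq, hd, hnq, hl⟩ := step1
  have sub := subset_convexHull ℝ V
  by_cases hr : ∃ r ∈ V, cr (q - v) (r - v) ≠ 0 ∧ dt n (r - v) = 0
  · obtain ⟨r, hr, h1, h2⟩ := hr
    exact ⟨_, isExposed_Mx _ n, finrank_Mx hn (mem_Mx_hull hl (sub hv) (by simp [dt]))
      (mem_Mx_hull hl (sub hq) hnq) (mem_Mx_hull hl (sub hr) h2) h1⟩
  · push Not at hr
    obtain ⟨μ, h1, z, hz, h2, h3⟩ := rotate hV n (cr n (q - v)) v hl
      (fun z hz h => by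
        have h0 : cr (q - v) (z - v) = 0 := by
          by_contra hc
          exact hr z hz hc h
        have e : dt (cr n (q - v)) (z - v) = dt n (cr (q - v) (z - v)) := by
          simp only [dt, cr_0, cr_1, cr_2]; ring
        rw [e, h0]; simp [dt]) (not_flat hi hn v)
    have hdd := dt_self_pos hd
    have hnn := dt_self_pos hn
    refine ⟨_, isExposed_Mx _ (cr n (q - v) + μ • n), finrank_Mx (v := v) (q := q) (r := z) ?_
      (mem_Mx_hull h1 (sub hv) (by simp [dt])) (mem_Mx_hull h1 (sub hq) ?_)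
      (mem_Mx_hull h1 (sub hz) h3) ?_⟩
    · intro h
      have e : dt (cr n (q - v) + μ • n) (cr n (q - v))
          = dt n n * dt (q - v) (q - v) - dt n (q - v) ^ 2 := by
        simp only [dt, cr_0, cr_1, cr_2, PiLp.add_apply, PiLp.smul_apply, smul_eq_mul]; ring
      rw [h, hnq] at e
      have := mul_pos hnn hdd
      have e0 : dt 0 (cr n (q - v)) = 0 := by simp [dt]
      rw [e0] at e
      linarith
    · have e : dt (cr n (q - v) + μ • n) (q - v) = μ * dt n (q - v) := by
        simp only [dt, cr_0, cr_1, cr_2, PiLp.add_apply, PiLp.smul_apply, smul_eq_mul]; ring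
      rw [e, hnq, mul_zero]
    · intro h
      have e : dt (q - v) (q - v) * dt n (z - v) = dt (q - v) (z - v) * dt n (q - v)
          - D n (q - v) (cr (q - v) (z - v)) := by
        simp only [dt, D, cr_0, cr_1, cr_2]; ring
      rw [h, hnq] at e
      have : D n (q - v) 0 = 0 := by simp [D]
      rw [this] at e
      have := mul_neg_of_pos_of_neg hdd h2
      linarith

end Pool.Agent.P.MP_fb3fae_co
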