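import Mathlib

namespace Pool.Agent.P.MP_fb3fae_co

/-- A convex polyhedron: the convex hull of finitely many points of space, with nonempty interior. -/
def IsConvexPolyhedron (P : Set (EuclideanSpace ℝ (Fin 3))) : Prop :=
  (∃ V : Finset (EuclideanSpace ℝ (Fin 3)),
    P = convexHull ℝ (V : Set (EuclideanSpace ℝ (Fin 3)))) ∧ (interior P).Nonempty

/-- `F` is a two dimensional face of `P`. -/
def IsTwoFace (P F : Set (EuclideanSpace ℝ (Fin 3))) : Prop :=
  IsExposed ℝ P F ∧ Module.finrank ℝ (vectorSpan ℝ F) = 2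

/-- `F` is the image of the triangle `A B C` under an isometry `φ` of space such that the normal
`(φ B - φ A) × (φ C - φ A)` of the oriented image points away from `P`. -/
def IsOutwardCopy (P F : Set (EuclideanSpace ℝ (Fin 3))) (A B C : EuclideanSpace ℝ (Fin 3)) :
    Prop :=
  ∃ φ : EuclideanSpace ℝ (Fin 3) ≃ᵢ EuclideanSpace ℝ (Fin 3),
    F = φ '' convexHull ℝ {A, B, C} ∧
    ∀ x ∈ P, crossProduct (φ B - φ A).ofLp (φ C - φ A).ofLp ⬝ᵥ (x - φ A).ofLp ≤ 0

end Pool.Agent.P.MP_fb3fae_co
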