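import Pool.Agent.P.MP_fb3fae_co.Main3

namespace Pool.Agent.P.MP_fb3fae_co

open Set

/-- `a b c` is a rearrangement of `l1 l2 l3` -/
def Pm (a b c l1 l2 l3 : ℝ) : Prop :=
  (a = l1 ∧ b = l2 ∧ c = l3) ∨ (a = l2 ∧ b = l3 ∧ c = l1) ∨ (a = l3 ∧ b = l1 ∧ c = l2) ∨
  (a = l1 ∧ b = l3 ∧ c = l2) ∨ (a = l2 ∧ b = l1 ∧ c = l3) ∨ (a = l3 ∧ b = l2 ∧ c = l1)

/-- acute, in side lengths -/
def Ac (a b c : ℝ) : Prop := c ^ 2 < a ^ 2 + b ^ 2 ∧ a ^ 2 < b ^ 2 + c ^ 2 ∧ b ^ 2 < c ^ 2 + a ^ 2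

/-- isosceles with apex angle below two thirds of a half turn, in side lengths -/
def Is (a b c : ℝ) : Prop :=
  (a = b ∧ c ^ 2 < 3 * a ^ 2) ∨ (b = c ∧ a ^ 2 < 3 * b ^ 2) ∨ (c = a ∧ b ^ 2 < 3 * c ^ 2)

lemma Pm.ac {a b c l1 l2 l3 : ℝ} (h : Pm a b c l1 l2 l3) (k : Ac a b c) : Ac l1 l2 l3 := by
  obtain ⟨k1, k2, k3⟩ := k
  rcases h with ⟨rfl, rfl, rfl⟩ | ⟨rfl, rfl, rfl⟩ | ⟨rfl, rfl, rfl⟩ | ⟨rfl, rfl, rfl⟩ |
    ⟨rfl, rfl, rfl⟩ | ⟨rfl, rfl, rfl⟩ <;> exact ⟨by linarith, by linarith, by linarith⟩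

lemma Pm.is {a b c l1 l2 l3 : ℝ} (h : Pm a b c l1 l2 l3) (e : c = a) (k : b ^ 2 < 3 * c ^ 2) :
    Is l1 l2 l3 := by
  unfold Is
  rcases h with ⟨rfl, rfl, rfl⟩ | ⟨rfl, rfl, rfl⟩ | ⟨rfl, rfl, rfl⟩ | ⟨rfl, rfl, rfl⟩ |
    ⟨rfl, rfl, rfl⟩ | ⟨rfl, rfl, rfl⟩ <;> subst e <;> simp [k]

lemma Pm.sum {a b c l1 l2 l3 : ℝ} (h : Pm a b c l1 l2 l3) : a + b + c = l1 + l2 + l3 := by
  rcases h with ⟨rfl, rfl, rfl⟩ | ⟨rfl, rfl, rfl⟩ | ⟨rfl, rfl, rfl⟩ | ⟨rfl, rfl, rfl⟩ |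
    ⟨rfl, rfl, rfl⟩ | ⟨rfl, rfl, rfl⟩ <;> ring

lemma Pm.mem {a b c a' b' c' l1 l2 l3 : ℝ} (h : Pm a b c l1 l2 l3) (h' : Pm a' b' c' l1 l2 l3) :
    c' = a ∨ c' = b ∨ c' = c := by
  have k : c' = l1 ∨ c' = l2 ∨ c' = l3 := by
    rcases h' with ⟨-, -, e⟩ | ⟨-, -, e⟩ | ⟨-, -, e⟩ | ⟨-, -, e⟩ | ⟨-, -, e⟩ | ⟨-, -, e⟩ <;> simp [e]
  rcases h with ⟨rfl, rfl, rfl⟩ | ⟨rfl, rfl, rfl⟩ | ⟨rfl, rfl, rfl⟩ | ⟨rfl, rfl, rfl⟩ |
    ⟨rfl, rfl, rfl⟩ | ⟨rfl, rfl, rfl⟩ <;> tauto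

lemma OFace.ne1 {P : Set E3} {v p q : E3} (h : OFace P v p q) : p ≠ v :=
  fun e => ne_zero_left h.nd (sub_eq_zero.mpr e)

lemma OFace.ne2 {P : Set E3} {v p q : E3} (h : OFace P v p q) : q ≠ p := h.rot.ne1

lemma OFace.ne3 {P : Set E3} {v p q : E3} (h : OFace P v p q) : v ≠ q := h.rot.rot.ne1

lemma OFace.two {P : Set E3} {v p q : E3} (h : OFace P v p q) :
    Module.finrank ℝ (vectorSpan ℝ (convexHull ℝ ({v, p, q} : Set E3))) = 2 := by
  have e : convexHull ℝ ({v, p, q} : Set E3) = Mx (convexHull ℝ {v, p, q}) (cr (p - v) (q - v)) := by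
    apply Subset.antisymm
    · intro x hx
      refine mem_Mx_hull (v := v) ?_ hx ?_
      · rintro z (rfl | rfl | rfl) <;> simp [dt] <;> nlinarith
      · obtain ⟨b, c, -, -, -, rfl⟩ := mem_tri_iff.mp hx
        simp [dt]; ring
    · exact fun x hx => hx.1
  have sub := subset_convexHull ℝ ({v, p, q} : Set E3)
  rw [e]
  exact finrank_Mx h.nd (e ▸ sub (by simp)) (e ▸ sub (by simp)) (e ▸ sub (by simp)) h.nd

/-- the vertices of an oriented face are determined by its point set -/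
lemma OFace.vert {P : Set E3} {v p q X Y Z : E3} (h : OFace P v p q)
    (e : convexHull ℝ ({v, p, q} : Set E3) = convexHull ℝ {X, Y, Z}) :
    v = X ∨ v = Y ∨ v = Z := by
  have h1 := vertex_extreme h.nd
  rw [e] at h1
  have h3 : v ∈ ({X, Y, Z} : Set E3) := extremePoints_convexHull_subset h1
  simpa using h3

lemma OFace.vert3 {P : Set E3} {v p q X Y Z : E3} (h : OFace P v p q)
    (e : convexHull ℝ ({v, p, q} : Set E3) = convexHull ℝ {X, Y, Z}) :
    (v = X ∧ p = Y ∧ q = Z) ∨ (v = Y ∧ p = Z ∧ q = X) ∨ (v = Z ∧ p = X ∧ q = Y) ∨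
    (v = X ∧ p = Z ∧ q = Y) ∨ (v = Y ∧ p = X ∧ q = Z) ∨ (v = Z ∧ p = Y ∧ q = X) := by
  have a1 := h.vert e
  have a2 := h.rot.vert (X := X) (Y := Y) (Z := Z) (by rw [← e, tri_rot v p q])
  have a3 := h.rot.rot.vert (X := X) (Y := Y) (Z := Z) (by rw [← e, tri_rot q v p])
  have n1 := h.ne1
  have n2 := h.ne2
  have n3 := h.ne3
  clear e h
  rcases a1 with a1 | a1 | a1 <;> rcases a2 with a2 | a2 | a2 <;>
    rcases a3 with a3 | a3 | a3 <;>
    first
      | exact absurd (a2.trans a1.symm) n1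
      | exact absurd (a3.trans a2.symm) n2
      | exact absurd (a1.trans a3.symm) n3
      | simp [a1, a2, a3]

lemma OFace.pm {P : Set E3} {A B C v p q : E3} (hall : AllFaces P A B C) (h : OFace P v p q) :
    Pm (dist v p) (dist p q) (dist q v) (dist A B) (dist B C) (dist C A) := by
  obtain ⟨X, Y, Z, e, d1, d2, d3⟩ := hall _ h.ex h.two
  rw [d1, d2, d3]
  unfold Pm
  rcases h.vert3 e with ⟨rfl, rfl, rfl⟩ | ⟨rfl, rfl, rfl⟩ | ⟨rfl, rfl, rfl⟩ | ⟨rfl, rfl, rfl⟩ |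
    ⟨rfl, rfl, rfl⟩ | ⟨rfl, rfl, rfl⟩ <;> simp [dist_comm]

/-- every two dimensional face carries an orientation -/
lemma oface_of_face {V : Set E3} (hV : V.Finite) (hi : (interior (convexHull ℝ V)).Nonempty)
    {A B C : E3} (hn : cr (B - A) (C - A) ≠ 0) (hall : AllFaces (convexHull ℝ V) A B C)
    {F : Set E3} (hF : IsExposed ℝ (convexHull ℝ V) F)
    (hd : Module.finrank ℝ (vectorSpan ℝ F) = 2) :
    ∃ X Y Z, F = convexHull ℝ {X, Y, Z} ∧ OFace (convexHull ℝ V) X Y Z := by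
  obtain ⟨X, Y, Z, e, h1, h2, h3⟩ := hall F hF hd
  have hne : V.Nonempty := by
    obtain ⟨x, hx⟩ := hi
    exact convexHull_nonempty_iff.mp ⟨x, interior_subset hx⟩
  have htop : vectorSpan ℝ V = ⊤ := by
    rwa [interior_convexHull_nonempty_iff_affineSpan_eq_top,
      AffineSubspace.affineSpan_eq_top_iff_vectorSpan_eq_top_of_nonempty ℝ E3 E3 hne] at hi
  obtain ⟨n, hn0, hFn, -⟩ := face_hull hV hne htop hF hd
  have nd := cr_ne_of_dist hn h1 h2 h3
  rcases oface_or nd hn0 (e.symm.trans hFn) with h | h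
  · exact ⟨X, Y, Z, e, nd, e ▸ hF, h⟩
  · refine ⟨X, Z, Y, by rw [e, pair_comm Y Z], ?_, by rw [pair_comm Z Y]; exact e ▸ hF, h⟩
    intro h0
    apply nd
    have e0 : cr (Z - X) (Y - X) 0 = 0 := by rw [h0]; rfl
    have e1 : cr (Z - X) (Y - X) 1 = 0 := by rw [h0]; rfl
    have e2 : cr (Z - X) (Y - X) 2 = 0 := by rw [h0]; rfl
    simp only [cr_0, cr_1, cr_2] at e0 e1 e2
    apply ext3 <;> simp only [cr_0, cr_1, cr_2, PiLp.zero_apply] <;> linarith

/-- every two dimensional face is an oriented triangle -/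
def Simp (P : Set E3) : Prop :=
  ∀ F, IsExposed ℝ P F → Module.finrank ℝ (vectorSpan ℝ F) = 2 →
    ∃ X Y Z, F = convexHull ℝ {X, Y, Z} ∧ OFace P X Y Z

lemma next_oface {V : Set E3} (hV : V.Finite) (hi : (interior (convexHull ℝ V)).Nonempty)
    (hH : Simp (convexHull ℝ V)) {v p q : E3} (g : OFace (convexHull ℝ V) v p q) :
    ∃ r, OFace (convexHull ℝ V) v q r ∧ D (p - v) (q - v) (r - v) < 0 := by
  have sub := subset_convexHull ℝ V
  set n := cr (p - v) (q - v) with hn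
  have hn0 : n ≠ 0 := g.nd
  have hnn := dt_self_pos hn0
  obtain ⟨μ, h1, z, hz, h2, h3⟩ := rotate hV n (cr n (q - v)) v
    (fun z hz => by rw [hn, dt_cr]; exact g.le z (sub hz))
    (fun z hz h => by
      rw [hn, dt_cr] at h
      obtain ⟨b, c, hb, -, -, rfl⟩ := mem_tri_iff.mp (g.mem_of_D (sub hz) h)
      have : dt (cr n (q - v)) (v + b • (p - v) + c • (q - v) - v) = - (b * dt n n) := by
        simp only [hn, dt, cr_0, cr_1, cr_2, PiLp.add_apply, PiLp.sub_apply, PiLp.smul_apply,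
          smul_eq_mul]
        ring
      rw [this]
      have := mul_nonneg hb hnn.le
      linarith) (not_flat hi hn0 v)
  set n' := cr n (q - v) + μ • n with hn'
  have hq0 : q - v ≠ 0 := ne_zero_right g.nd
  have hp' : dt n' (p - v) = - dt n n := by
    simp only [hn', hn, dt, cr_0, cr_1, cr_2, PiLp.add_apply, PiLp.smul_apply, smul_eq_mul]
    ring
  have hn'0 : n' ≠ 0 := by
    intro h
    rw [h] at hp'
    have : dt 0 (p - v) = 0 := by simp [dt]
    linarith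
  have mv : v ∈ Mx (convexHull ℝ V) n' := mem_Mx_hull h1 g.mem (by simp [dt])
  have mq : q ∈ Mx (convexHull ℝ V) n' := by
    refine mem_Mx_hull h1 g.rot.rot.mem ?_
    simp only [hn', hn, dt, cr_0, cr_1, cr_2, PiLp.add_apply, PiLp.smul_apply, smul_eq_mul]
    ring
  have mz : z ∈ Mx (convexHull ℝ V) n' := mem_Mx_hull h1 (sub hz) h3
  rw [hn, dt_cr] at h2
  have hnd : cr (q - v) (z - v) ≠ 0 := by
    intro h
    have e : D (p - v) (q - v) (z - v) = dt (p - v) (cr (q - v) (z - v)) := by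
      simp only [dt, D, cr_0, cr_1, cr_2]; ring
    rw [h] at e
    have : dt (p - v) 0 = 0 := by simp [dt]
    linarith
  obtain ⟨X, Y, Z, e, g'⟩ := hH _ (isExposed_Mx _ n') (finrank_Mx hn'0 mv mq mz hnd)
  have ext : ∀ x ∈ Mx (convexHull ℝ V) n', x ∈ (convexHull ℝ V).extremePoints ℝ →
      x = X ∨ x = Y ∨ x = Z := by
    intro x hx hx'
    have h4 := inter_extremePoints_subset_extremePoints_of_subset (𝕜 := ℝ)
      (isExposed_Mx (convexHull ℝ V) n').subset ⟨hx, hx'⟩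
    rw [e] at h4
    have h5 : x ∈ ({X, Y, Z} : Set E3) := extremePoints_convexHull_subset h4
    simpa using h5
  have hv' := ext v mv g.extreme
  have hq' := ext q mq g.rot.rot.extreme
  rw [e] at mz
  have good : ∀ r, OFace (convexHull ℝ V) v q r → z ∈ convexHull ℝ ({v, q, r} : Set E3) →
      ∃ r, OFace (convexHull ℝ V) v q r ∧ D (p - v) (q - v) (r - v) < 0 := by
    intro r gr hzr
    refine ⟨r, gr, lt_of_le_of_ne (g.le r gr.rot.rot.mem) ?_⟩
    intro a4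
    have := D_tri hzr a4
    linarith
  have bad : ∀ r, OFace (convexHull ℝ V) v r q → z ∈ convexHull ℝ ({v, r, q} : Set E3) →
      False := by
    intro r gr hzr
    have a1 := gr.le p g.rot.mem
    have a2 := g.le r gr.rot.mem
    have a3 : D (r - v) (q - v) (p - v) = - D (p - v) (q - v) (r - v) := by simp only [D]; ring
    have a4 : D (p - v) (q - v) (r - v) = 0 := by linarith
    rw [pair_comm r q] at hzr
    have := D_tri hzr a4
    linarith
  rcases hv' with rfl | rfl | rfl <;> rcases hq' with rfl | rfl | rfl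
  · simp at hq0
  · exact good _ g' mz
  · exact (bad _ g' mz).elim
  · exact (bad _ g'.rot (by rwa [← tri_rot])).elim
  · simp at hq0
  · exact good _ g'.rot (by rwa [← tri_rot])
  · exact good _ g'.rot.rot (by rwa [tri_rot])
  · exact (bad _ g'.rot.rot (by rwa [tri_rot])).elim
  · simp at hq0

lemma ne_of_D {v p q r : E3} (h : D (p - v) (q - v) (r - v) < 0) : r ≠ v ∧ r ≠ p ∧ r ≠ q := by
  refine ⟨?_, ?_, ?_⟩ <;> rintro rfl
  · simp [D] at h
  · have : D (r - v) (q - v) (r - v) = 0 := by simp only [D]; ring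
    linarith
  · have : D (p - v) (r - v) (r - v) = 0 := by simp only [D]; ring
    linarith

/-- the face on the left of a directed edge is unique -/
lemma OFace.uniq {P : Set E3} {v p q r : E3} (g : OFace P v p q) (g' : OFace P v p r) : r = q := by
  have a1 := g.le r g'.rot.rot.mem
  have a2 := g'.le q g.rot.rot.mem
  have a3 : D (p - v) (r - v) (q - v) = - D (p - v) (q - v) (r - v) := by simp only [D]; ring
  rcases g.vertex_of_D g'.rot.rot.extreme (by linarith) with h | h | h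
  · exact absurd h.symm g'.ne3
  · exact absurd h g'.ne2
  · exact h

lemma gram_iso {x1 x2 x3 : E3} {a c : ℝ} (hD : D x1 x2 x3 ≠ 0) (a1 : ‖x1‖ = a)
    (a2 : ‖x2‖ = a) (a3 : ‖x3‖ = a) (a12 : ‖x1 - x2‖ = c) (a23 : ‖x2 - x3‖ = c)
    (a31 : ‖x3 - x1‖ = c) : c ^ 2 < 3 * a ^ 2 := by
  have b1 := norm_sq_eq_dt x1
  have b2 := norm_sq_eq_dt x2
  have b3 := norm_sq_eq_dt x3
  have b12 := norm_sq_eq_dt (x1 - x2)
  have b23 := norm_sq_eq_dt (x2 - x3)
  have b31 := norm_sq_eq_dt (x3 - x1)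
  rw [a1] at b1; rw [a2] at b2; rw [a3] at b3; rw [a12] at b12; rw [a23] at b23; rw [a31] at b31
  have g12 : dt x1 x2 = (2 * a ^ 2 - c ^ 2) / 2 := by
    have : dt (x1 - x2) (x1 - x2) = dt x1 x1 + dt x2 x2 - 2 * dt x1 x2 := by simp [dt]; ring
    linarith
  have g23 : dt x2 x3 = (2 * a ^ 2 - c ^ 2) / 2 := by
    have : dt (x2 - x3) (x2 - x3) = dt x2 x2 + dt x3 x3 - 2 * dt x2 x3 := by simp [dt]; ring
    linarith
  have g31 : dt x3 x1 = (2 * a ^ 2 - c ^ 2) / 2 := by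
    have : dt (x3 - x1) (x3 - x1) = dt x3 x3 + dt x1 x1 - 2 * dt x3 x1 := by simp [dt]; ring
    linarith
  have gram : D x1 x2 x3 ^ 2 = dt x1 x1 * dt x2 x2 * dt x3 x3 + 2 * dt x1 x2 * dt x2 x3 * dt x3 x1
      - dt x1 x1 * dt x2 x3 ^ 2 - dt x2 x2 * dt x3 x1 ^ 2 - dt x3 x3 * dt x1 x2 ^ 2 := by
    simp only [D, dt]; ring
  rw [← b1, ← b2, ← b3, g12, g23, g31] at gram
  have hpos : 0 < D x1 x2 x3 ^ 2 := by positivity
  have e : 4 * D x1 x2 x3 ^ 2 = (c ^ 2) ^ 2 * (3 * a ^ 2 - c ^ 2) := by rw [gram]; ring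
  by_contra hc
  have := mul_nonpos_of_nonneg_of_nonpos (sq_nonneg (c ^ 2)) (show 3 * a ^ 2 - c ^ 2 ≤ 0 by linarith)
  linarith

/-- a vertex of degree three -/
lemma deg3 {P : Set E3} {A B C v p q r : E3} (hall : AllFaces P A B C) (g1 : OFace P v p q)
    (g2 : OFace P v q r) (g3 : OFace P v r p) :
    Ac (dist A B) (dist B C) (dist C A) ∨
      (Is (dist A B) (dist B C) (dist C A) ∧ dist q v = dist v p) := by
  have hD : D (p - v) (q - v) (r - v) ≠ 0 := by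
    intro h0
    rcases g1.vertex_of_D g2.rot.rot.extreme h0 with h | h | h
    · exact g2.ne3 h.symm
    · exact g3.ne2 h.symm
    · exact g2.ne2 h
  have m1 := g1.pm hall
  have m2 := g2.pm hall
  have m3 := g3.pm hall
  have s1 := m1.sum
  have s2 := m2.sum
  have s3 := m3.sum
  have k1 := m1.mem m2
  have k2 := m2.mem m3
  have k3 := m3.mem m1
  have n1 : ‖p - v‖ = dist v p := by rw [dist_comm, dist_eq_norm]
  have n2 : ‖q - v‖ = dist q v := by rw [dist_eq_norm]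
  have n3 : ‖r - v‖ = dist r v := by rw [dist_eq_norm]
  have n12 : ‖(p - v) - (q - v)‖ = dist p q := by rw [dist_eq_norm, sub_sub_sub_cancel_right]
  have n23 : ‖(q - v) - (r - v)‖ = dist q r := by rw [dist_eq_norm, sub_sub_sub_cancel_right]
  have n31 : ‖(r - v) - (p - v)‖ = dist r p := by rw [dist_eq_norm, sub_sub_sub_cancel_right]
  rw [dist_comm v q] at s2 k2
  rw [dist_comm v r, dist_comm p v] at s3
  rw [dist_comm p v] at k2
  rw [dist_comm v r, dist_comm p v] at k3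
  by_cases hc : dist r v = dist p q
  · left
    exact m1.ac (gram_acute hD n1 n2 (n3.trans hc) n12 (by linarith) (by linarith))
  · right
    have e1 : dist q v = dist v p ∧ dist r v = dist v p := by
      rcases k1 with k1 | k1 | k1 <;> rcases k2 with k2 | k2 | k2 <;>
        rcases k3 with k3 | k3 | k3 <;>
        first
          | exact ⟨by linarith, by linarith⟩
          | exact absurd (by linarith) hc
    refine ⟨m1.is e1.1 ?_, e1.1⟩
    rw [e1.1]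
    exact gram_iso hD n1 (n2.trans e1.1) (n3.trans e1.2) n12 (by linarith [e1.1, e1.2])
      (by linarith [e1.1, e1.2])

end Pool.Agent.P.MP_fb3fae_co
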