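import Pool.Agent.P.MP_fb3fae_co.Few1

namespace Pool.Agent.P.MP_fb3fae_co

open Set

/-- three faces close up around `v` -/
def Deg3 (P : Set E3) (v p q : E3) : Prop :=
  ∃ r, OFace P v q r ∧ OFace P v r p

/-- oriented faces with a marked vertex -/
def TS (P : Set E3) : Set (E3 × E3 × E3) := {t | OFace P t.1 t.2.1 t.2.2}

/-- the point set of a triple -/
def hullOf (t : E3 × E3 × E3) : Set E3 := convexHull ℝ {t.1, t.2.1, t.2.2}

lemma TS_finite {V : Set E3} (hV : V.Finite) : (TS (convexHull ℝ V)).Finite := by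
  refine (hV.prod (hV.prod hV)).subset ?_
  rintro ⟨v, p, q⟩ h
  have h' : OFace (convexHull ℝ V) v p q := h
  exact ⟨extremePoints_convexHull_subset h'.extreme,
    extremePoints_convexHull_subset h'.rot.extreme,
    extremePoints_convexHull_subset h'.rot.rot.extreme⟩

lemma faces_eq {P : Set E3} (hH : Simp P) : {F | IsTwoFace P F} = hullOf '' TS P := by
  ext F
  constructor
  · rintro ⟨h1, h2⟩
    obtain ⟨X, Y, Z, e, g⟩ := hH F h1 h2
    exact ⟨(X, Y, Z), g, e.symm⟩
  · rintro ⟨⟨v, p, q⟩, h, rfl⟩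
    have h' : OFace P v p q := h
    exact ⟨h'.ex, h'.two⟩

section
variable {V : Set E3} (hV : V.Finite) (hi : (interior (convexHull ℝ V)).Nonempty)
  (hH : Simp (convexHull ℝ V))
include hV hi hH

lemma not_flip {v p q : E3} (g : OFace (convexHull ℝ V) v p q)
    (g' : OFace (convexHull ℝ V) v q p) : False := by
  obtain ⟨r, gr, h⟩ := next_oface hV hi hH g
  have a := g'.le r gr.rot.rot.mem
  have e : D (q - v) (p - v) (r - v) = - D (p - v) (q - v) (r - v) := by simp only [D]; ring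
  linarith

lemma card_T_le : (TS_finite hV).toFinset.card ≤ 3 * {F | IsTwoFace (convexHull ℝ V) F}.ncard := by
  classical
  have e : {F | IsTwoFace (convexHull ℝ V) F} = ↑((TS_finite hV).toFinset.image hullOf) := by
    rw [faces_eq hH]; simp
  rw [e, Set.ncard_coe_finset]
  apply Finset.card_le_mul_card_image
  intro a ha
  obtain ⟨⟨v, p, q⟩, h, rfl⟩ := Finset.mem_image.mp ha
  have g : OFace (convexHull ℝ V) v p q := by simpa [TS] using h
  refine le_trans (Finset.card_le_card (t := {(v, p, q), (p, q, v), (q, v, p)}) ?_)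
    Finset.card_le_three
  rintro ⟨x, y, z⟩ hx
  rw [Finset.mem_filter] at hx
  have g' : OFace (convexHull ℝ V) x y z := by simpa [TS] using hx.1
  rcases g'.vert3 hx.2 with ⟨rfl, rfl, rfl⟩ | ⟨rfl, rfl, rfl⟩ | ⟨rfl, rfl, rfl⟩ | ⟨rfl, rfl, rfl⟩ |
    ⟨rfl, rfl, rfl⟩ | ⟨rfl, rfl, rfl⟩
  · simp
  · simp
  · simp
  · exact (not_flip hV hi hH g g').elim
  · exact (not_flip hV hi hH g.rot g').elim
  · exact (not_flip hV hi hH g.rot.rot g').elim

lemma fan {v p1 p2 : E3} (g : OFace (convexHull ℝ V) v p1 p2) :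
    ∃ p3 p4 p5, OFace (convexHull ℝ V) v p2 p3 ∧ OFace (convexHull ℝ V) v p3 p4 ∧
      OFace (convexHull ℝ V) v p4 p5 ∧ p3 ≠ p1 ∧ p4 ≠ p2 := by
  obtain ⟨p3, g2, c1⟩ := next_oface hV hi hH g
  obtain ⟨p4, g3, c2⟩ := next_oface hV hi hH g2
  obtain ⟨p5, g4, -⟩ := next_oface hV hi hH g3
  exact ⟨p3, p4, p5, g2, g3, g4, (ne_of_D c1).2.1, (ne_of_D c2).2.1⟩

open Classical in
lemma deg_ge {v p1 p2 : E3} (g : OFace (convexHull ℝ V) v p1 p2) :
    3 ≤ ((TS_finite hV).toFinset.filter (fun x => x.1 = v)).card ∧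
    (¬ Deg3 (convexHull ℝ V) v p1 p2 →
      4 ≤ ((TS_finite hV).toFinset.filter (fun x => x.1 = v)).card) := by
  obtain ⟨p3, p4, p5, g2, g3, g4, n31, n42⟩ := fan hV hi hH g
  have n21 := g.ne2
  have n32 := g2.ne2
  have n43 := g3.ne2
  have mem : ∀ p q, OFace (convexHull ℝ V) v p q →
      p ∈ ((TS_finite hV).toFinset.filter (fun x => x.1 = v)).image (fun x => x.2.1) := by
    intro p q h
    exact Finset.mem_image.mpr ⟨(v, p, q), Finset.mem_filter.mpr ⟨by simpa [TS] using h, rfl⟩, rfl⟩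
  constructor
  · refine le_trans ?_ (Finset.card_image_le (f := fun x : E3 × E3 × E3 => x.2.1))
    have : ({p1, p2, p3} : Finset E3).card = 3 :=
      Finset.card_eq_three.mpr ⟨_, _, _, n21.symm, n31.symm, n32.symm, rfl⟩
    refine le_trans this.ge (Finset.card_le_card ?_)
    intro x hx
    simp only [Finset.mem_insert, Finset.mem_singleton] at hx
    rcases hx with rfl | rfl | rfl
    · exact mem _ _ g
    · exact mem _ _ g2
    · exact mem _ _ g3
  · intro h3
    have n41 : p4 ≠ p1 := by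
      rintro rfl
      exact h3 ⟨_, g2, g3⟩
    refine le_trans ?_ (Finset.card_image_le (f := fun x : E3 × E3 × E3 => x.2.1))
    have : ({p4, p1, p2, p3} : Finset E3).card = 4 := by
      rw [Finset.card_insert_of_notMem (by simp [n41, n42, n43]),
        Finset.card_eq_three.mpr ⟨_, _, _, n21.symm, n31.symm, n32.symm, rfl⟩]
    refine le_trans this.ge (Finset.card_le_card ?_)
    intro x hx
    simp only [Finset.mem_insert, Finset.mem_singleton] at hx
    rcases hx with rfl | rfl | rfl | rfl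
    · exact mem _ _ g4
    · exact mem _ _ g
    · exact mem _ _ g2
    · exact mem _ _ g3

omit hi hH in
open Classical in
lemma mem_W {v : E3} : v ∈ (TS_finite hV).toFinset.image Prod.fst ↔
    ∃ p q, OFace (convexHull ℝ V) v p q := by
  constructor
  · intro h
    obtain ⟨⟨x, p, q⟩, h', rfl⟩ := Finset.mem_image.mp h
    exact ⟨p, q, by simpa [TS] using h'⟩
  · rintro ⟨p, q, h⟩
    exact Finset.mem_image.mpr ⟨(v, p, q), by simpa [TS] using h, rfl⟩

open Classical in
lemma card_W {v p1 p2 : E3} (g : OFace (convexHull ℝ V) v p1 p2) :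
    4 ≤ ((TS_finite hV).toFinset.image Prod.fst).card ∧
    (¬ Deg3 (convexHull ℝ V) v p1 p2 → 5 ≤ ((TS_finite hV).toFinset.image Prod.fst).card) ∧
    ((∀ w a b, OFace (convexHull ℝ V) w a b → ¬ Deg3 (convexHull ℝ V) w a b) →
      6 ≤ ((TS_finite hV).toFinset.image Prod.fst).card) := by
  obtain ⟨p3, p4, p5, g2, g3, g4, n31, n42⟩ := fan hV hi hH g
  have n21 := g.ne2
  have n32 := g2.ne2
  have n43 := g3.ne2
  have v1 := g.ne1.symm
  have v2 := g2.ne1.symm
  have v3 := g3.ne1.symm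
  have v4 := g4.ne1.symm
  have c4 : ({v, p1, p2, p3} : Finset E3).card = 4 := by
    rw [Finset.card_insert_of_notMem (by simp [v1, v2, v3]),
      Finset.card_eq_three.mpr ⟨_, _, _, n21.symm, n31.symm, n32.symm, rfl⟩]
  have s5 : ({p4, v, p1, p2, p3} : Finset E3) ⊆ (TS_finite hV).toFinset.image Prod.fst := by
    intro x hx
    simp only [Finset.mem_insert, Finset.mem_singleton] at hx
    rw [mem_W hV]
    rcases hx with rfl | rfl | rfl | rfl | rfl
    · exact ⟨_, _, g4.rot⟩
    · exact ⟨_, _, g⟩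
    · exact ⟨_, _, g.rot⟩
    · exact ⟨_, _, g2.rot⟩
    · exact ⟨_, _, g3.rot⟩
  have c5 : ¬ Deg3 (convexHull ℝ V) v p1 p2 →
      ({p4, v, p1, p2, p3} : Finset E3).card = 5 := by
    intro h3
    have n41 : p4 ≠ p1 := by
      rintro rfl
      exact h3 ⟨_, g2, g3⟩
    rw [Finset.card_insert_of_notMem (by simp [n41, n42, n43, v4.symm]), c4]
  refine ⟨?_, ?_, ?_⟩
  · rw [← c4]
    exact Finset.card_le_card (fun x hx => s5 (Finset.mem_insert_of_mem hx))
  · intro h3
    rw [← c5 h3]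
    exact Finset.card_le_card s5
  · intro h3
    by_contra hc
    have e := Finset.eq_of_subset_of_card_le s5 (by rw [c5 (h3 _ _ _ g)]; omega)
    have five : ∀ r a b, OFace (convexHull ℝ V) r a b →
        r = p4 ∨ r = v ∨ r = p1 ∨ r = p2 ∨ r = p3 := by
      intro r a b h
      have := (mem_W hV).mpr ⟨a, b, h⟩
      rw [← e] at this
      simpa using this
    have n41 : p4 ≠ p1 := by
      rintro rfl
      exact h3 _ _ _ g ⟨_, g2, g3⟩
    obtain ⟨r, gr, cr'⟩ := next_oface hV hi hH g.rot.rot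
    obtain ⟨s, gs, cs⟩ := next_oface hV hi hH g.rot
    obtain ⟨r1, r2, r3⟩ := ne_of_D cr'
    obtain ⟨s1, s2, s3⟩ := ne_of_D cs
    rcases five r _ _ gr.rot.rot with rfl | h | h | h | rfl
    · rcases five s _ _ gs.rot.rot with rfl | h | h | h | rfl
      · exact h3 _ _ _ g.rot ⟨_, gs, gr.rot⟩
      · exact s3 h
      · exact s1 h
      · exact s2 h
      · exact n41 (gs.rot.uniq g3)
    · exact r2 h
    · exact r3 h
    · exact r1 h
    · exact h3 _ _ _ g.rot.rot ⟨_, gr, g2.rot⟩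

lemma lower_bounds :
    4 ≤ {F | IsTwoFace (convexHull ℝ V) F}.ncard ∧
    ((∃ v p q, OFace (convexHull ℝ V) v p q ∧ ¬ Deg3 (convexHull ℝ V) v p q) →
      6 ≤ {F | IsTwoFace (convexHull ℝ V) F}.ncard) ∧
    ((∀ w a b, OFace (convexHull ℝ V) w a b → ¬ Deg3 (convexHull ℝ V) w a b) →
      8 ≤ {F | IsTwoFace (convexHull ℝ V) F}.ncard) := by
  classical
  have hT := card_T_le hV hi hH
  obtain ⟨F, hF, hd⟩ := exists_face hV hi
  obtain ⟨v, p, q, -, g⟩ := hH F hF hd
  have h3 : 3 * ((TS_finite hV).toFinset.image Prod.fst).card ≤ (TS_finite hV).toFinset.card := by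
    apply Finset.mul_card_image_le_card
    intro a ha
    obtain ⟨b, c, h⟩ := (mem_W hV).mp ha
    exact (deg_ge hV hi hH h).1
  refine ⟨?_, ?_, ?_⟩
  · have := (card_W hV hi hH g).1
    omega
  · rintro ⟨v, p, q, g, hv⟩
    have h5 := (card_W hV hi hH g).2.1 hv
    have e := Finset.card_eq_sum_card_image Prod.fst (TS_finite hV).toFinset
    have lt : ∑ _a ∈ (TS_finite hV).toFinset.image Prod.fst, 3 <
        ∑ a ∈ (TS_finite hV).toFinset.image Prod.fst,
          ((TS_finite hV).toFinset.filter (fun x => x.1 = a)).card := by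
      apply Finset.sum_lt_sum
      · intro a ha
        obtain ⟨b, c, h⟩ := (mem_W hV).mp ha
        exact (deg_ge hV hi hH h).1
      · refine ⟨v, (mem_W hV).mpr ⟨p, q, g⟩, ?_⟩
        have := (deg_ge hV hi hH g).2 hv
        omega
    rw [Finset.sum_const, smul_eq_mul, ← e] at lt
    omega
  · intro hw
    have h6 := (card_W hV hi hH g).2.2 hw
    have h4 : 4 * ((TS_finite hV).toFinset.image Prod.fst).card ≤
        (TS_finite hV).toFinset.card := by
      apply Finset.mul_card_image_le_card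
      intro a ha
      obtain ⟨b, c, h⟩ := (mem_W hV).mp ha
      exact (deg_ge hV hi hH h).2 (hw _ _ _ h)
    omega

end

/-- lower bounds in terms of the triangle -/
lemma lower_tri {V : Set E3} (hV : V.Finite) (hi : (interior (convexHull ℝ V)).Nonempty)
    {A B C : E3} (hn : cr (B - A) (C - A) ≠ 0) (hall : AllFaces (convexHull ℝ V) A B C) :
    4 ≤ {F | IsTwoFace (convexHull ℝ V) F}.ncard ∧
    (¬ Ac (dist A B) (dist B C) (dist C A) → 6 ≤ {F | IsTwoFace (convexHull ℝ V) F}.ncard) ∧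
    (¬ Ac (dist A B) (dist B C) (dist C A) → ¬ Is (dist A B) (dist B C) (dist C A) →
      8 ≤ {F | IsTwoFace (convexHull ℝ V) F}.ncard) := by
  have hH : Simp (convexHull ℝ V) := fun F hF hd => oface_of_face hV hi hn hall hF hd
  obtain ⟨l4, l6, l8⟩ := lower_bounds hV hi hH
  refine ⟨l4, fun hac => l6 ?_, fun hac his => l8 ?_⟩
  · obtain ⟨F, hF, hd⟩ := exists_face hV hi
    obtain ⟨v, p, q, -, g⟩ := hH F hF hd
    have key : ∀ v p q, OFace (convexHull ℝ V) v p q → Deg3 (convexHull ℝ V) v p q →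
        dist q v = dist v p := by
      rintro v p q g ⟨c, g2, g3⟩
      exact ((deg3 hall g g2 g3).resolve_left hac).2
    by_contra hc
    push Not at hc
    have e1 := key _ _ _ g (hc _ _ _ g)
    have e2 := key _ _ _ g.rot (hc _ _ _ g.rot)
    apply hac
    apply (g.pm hall).ac
    have : 0 < dist v p := dist_pos.mpr g.ne1.symm
    rw [e1, ← e2]
    have := pow_pos this 2
    exact ⟨by linarith, by linarith, by linarith⟩
  · rintro w a b g1 ⟨c, g2, g3⟩
    rcases deg3 hall g1 g2 g3 with h | h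
    · exact hac h
    · exact his h.1

end Pool.Agent.P.MP_fb3fae_co
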