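import Pool.Agent.P.MP_fb3fae_co.Few2

namespace Pool.Agent.P.MP_fb3fae_co

open Set

/-- a polyhedron with all faces congruent to `A B C` and at most `k` faces -/
def Ex (k : ℕ) (A B C : E3) : Prop :=
  ∃ S : Set E3, S.Finite ∧ (interior (convexHull ℝ S)).Nonempty ∧
    AllFaces (convexHull ℝ S) A B C ∧ {F | IsTwoFace (convexHull ℝ S) F}.ncard ≤ k

lemma Ex.rot {k : ℕ} {A B C : E3} (h : Ex k A B C) : Ex k C A B := by
  obtain ⟨S, h1, h2, h3, h4⟩ := h
  exact ⟨S, h1, h2, h3.rot, h4⟩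

lemma ex_of_list {S : Set E3} (hfin : S.Finite) (hne : S.Nonempty) (htop : vectorSpan ℝ S = ⊤)
    {A B C : E3} (L : List (E3 × E3 × E3))
    (hL : ∀ t ∈ L, dt (t.1 - t.2.1) (t.1 - t.2.1) = dist A B ^ 2 ∧
      dt (t.2.1 - t.2.2) (t.2.1 - t.2.2) = dist B C ^ 2 ∧
      dt (t.2.2 - t.1) (t.2.2 - t.1) = dist C A ^ 2)
    (hM : ∀ n : E3, n ≠ 0 → ∃ t ∈ L, Mx S n ⊆ {t.1, t.2.1, t.2.2}) : Ex L.length A B C := by
  classical
  have key : ∀ F, IsExposed ℝ (convexHull ℝ S) F → Module.finrank ℝ (vectorSpan ℝ F) = 2 →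
      ∃ t ∈ L, F = hullOf t := by
    intro F hF hd
    obtain ⟨n, hn0, -, hFn⟩ := face_hull hfin hne htop hF hd
    obtain ⟨t, ht, hsub⟩ := hM n hn0
    refine ⟨t, ht, ?_⟩
    rw [hFn] at hd ⊢
    exact hull_eq_tri hsub hd
  refine ⟨S, hfin, interior_nonempty_of_top hne htop, ?_, ?_⟩
  · intro F hF hd
    obtain ⟨t, ht, e⟩ := key F hF hd
    obtain ⟨d1, d2, d3⟩ := hL t ht
    exact ⟨t.1, t.2.1, t.2.2, e, (dist_eq_of_sq dist_nonneg d1).symm,
      (dist_eq_of_sq dist_nonneg d2).symm, (dist_eq_of_sq dist_nonneg d3).symm⟩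
  · have sub : {F | IsTwoFace (convexHull ℝ S) F} ⊆ ↑((L.map hullOf).toFinset) := by
      rintro F ⟨hF, hd⟩
      obtain ⟨t, ht, e⟩ := key F hF hd
      simp only [List.coe_toFinset, List.mem_map, mem_ofPred_eq]
      exact ⟨t, ht, e.symm⟩
    refine le_trans (Set.ncard_le_ncard sub (Finset.finite_toSet _)) ?_
    rw [Set.ncard_coe_finset]
    simpa using List.toFinset_card_le (L.map hullOf)

lemma ex_scal_acute {A B C : E3} (hn : cr (B - A) (C - A) ≠ 0) (hac : 0 < dt (B - A) (C - A)) :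
    Ex 8 A B C := by
  obtain ⟨h, r, z, hr, hz1, hz2, e1, e2, e3⟩ := scal_params (dt_self_pos (ne_zero_left hn))
    (dt_self_pos (ne_zero_right hn)) hac (cs_strict hn)
  have hh : 0 < h := by linarith
  have dAB : dist A B ^ 2 = r ^ 2 + (h - z) ^ 2 := by
    rw [e1, dist_sq]; simp [dt]; ring
  have dCA : dist C A ^ 2 = r ^ 2 + (h + z) ^ 2 := by
    rw [e2, dist_sq]
  have dBC : dist B C ^ 2 = 2 * r ^ 2 + 4 * z ^ 2 := by
    rw [e3, dist_sq]; simp [dt]; ring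
  set S : Set E3 := {pN h, pN (-h), pA r z, pA (-r) z, pB r z, pB (-r) z} with hS
  have hfin : S.Finite := by simp [hS]
  have hne : S.Nonempty := ⟨pN h, by simp [hS]⟩
  have htop : vectorSpan ℝ S = ⊤ := by
    apply vectorSpan_eq_top_of_axes (a := 2 * r) (b := 2 * r) (c := 2 * h) (by positivity)
      (by positivity) (by positivity)
    · have e : (!₂[2 * r, 0, 0] : E3) = pA r z -ᵥ pA (-r) z := by
        apply ext3 <;> simp [pA]; ring
      rw [e]
      exact vsub_mem_vectorSpan ℝ (by simp [hS]) (by simp [hS])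
    · have e : (!₂[0, 2 * r, 0] : E3) = pB r z -ᵥ pB (-r) z := by
        apply ext3 <;> simp [pB]; ring
      rw [e]
      exact vsub_mem_vectorSpan ℝ (by simp [hS]) (by simp [hS])
    · have e : (!₂[0, 0, 2 * h] : E3) = pN h -ᵥ pN (-h) := by
        apply ext3 <;> simp [pN]; ring
      rw [e]
      exact vsub_mem_vectorSpan ℝ (by simp [hS]) (by simp [hS])
  refine ex_of_list hfin hne htop
    [(pN h, pA r z, pB r z), (pN h, pA r z, pB (-r) z), (pN h, pA (-r) z, pB r z),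
      (pN h, pA (-r) z, pB (-r) z), (pN (-h), pB r z, pA r z), (pN (-h), pB (-r) z, pA r z),
      (pN (-h), pB r z, pA (-r) z), (pN (-h), pB (-r) z, pA (-r) z)] ?_ ?_
  · intro t ht
    simp only [List.mem_cons, List.not_mem_nil, or_false] at ht
    rw [dAB, dBC, dCA]
    rcases ht with rfl | rfl | rfl | rfl | rfl | rfl | rfl | rfl <;>
      refine ⟨?_, ?_, ?_⟩ <;> simp [dt, pN, pA, pB] <;> ring
  · intro n hn0
    obtain ⟨X, Y, Z, hX, hY, hZ, hsub⟩ := scal_faces hr hz1 hz2 n hn0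
    rcases hX with rfl | rfl
    · refine ⟨(pN h, Y, Z), ?_, hsub⟩
      rcases hY with rfl | rfl <;> rcases hZ with rfl | rfl <;> simp
    · refine ⟨(pN (-h), Z, Y), ?_, by rw [pair_comm Y Z] at hsub; exact hsub⟩
      rcases hY with rfl | rfl <;> rcases hZ with rfl | rfl <;> simp

lemma ex_scal {A B C : E3} (hn : cr (B - A) (C - A) ≠ 0) : Ex 8 A B C := by
  by_cases hac : 0 < dt (B - A) (C - A)
  · exact ex_scal_acute hn hac
  · have h1 : 0 < dt (C - B) (A - B) := by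
      have := dt_self_pos (ne_zero_left hn)
      have e : dt (C - B) (A - B) + dt (B - A) (C - A) = dt (B - A) (B - A) := by
        simp [dt]; ring
      linarith
    exact (ex_scal_acute (A := B) (B := C) (C := A) (by rwa [cr_rot]) h1).rot

lemma ex_disph {A B C : E3} (h : Ac (dist A B) (dist B C) (dist C A)) : Ex 4 A B C := by
  obtain ⟨h1, h2, h3⟩ := h
  obtain ⟨x, hx, hx2⟩ : ∃ x : ℝ, 0 < x ∧ x ^ 2 = (dist B C ^ 2 + dist C A ^ 2 - dist A B ^ 2) / 8 :=
    ⟨_, Real.sqrt_pos.mpr (by linarith), Real.sq_sqrt (by linarith)⟩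
  obtain ⟨y, hy, hy2⟩ : ∃ x : ℝ, 0 < x ∧ x ^ 2 = (dist A B ^ 2 + dist B C ^ 2 - dist C A ^ 2) / 8 :=
    ⟨_, Real.sqrt_pos.mpr (by linarith), Real.sq_sqrt (by linarith)⟩
  obtain ⟨z, hz, hz2⟩ : ∃ x : ℝ, 0 < x ∧ x ^ 2 = (dist C A ^ 2 + dist A B ^ 2 - dist B C ^ 2) / 8 :=
    ⟨_, Real.sqrt_pos.mpr (by linarith), Real.sq_sqrt (by linarith)⟩
  have dAB : dist A B ^ 2 = 4 * y ^ 2 + 4 * z ^ 2 := by linarith
  have dBC : dist B C ^ 2 = 4 * x ^ 2 + 4 * y ^ 2 := by linarith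
  have dCA : dist C A ^ 2 = 4 * x ^ 2 + 4 * z ^ 2 := by linarith
  set S : Set E3 := {pt x y z, pt x (-y) (-z), pt (-x) y (-z), pt (-x) (-y) z} with hS
  have hfin : S.Finite := by simp [hS]
  have hne : S.Nonempty := ⟨pt x y z, by simp [hS]⟩
  have m0 : pt x y z ∈ S := by simp [hS]
  have m1 : pt x (-y) (-z) ∈ S := by simp [hS]
  have m2 : pt (-x) y (-z) ∈ S := by simp [hS]
  have m3 : pt (-x) (-y) z ∈ S := by simp [hS]
  have htop : vectorSpan ℝ S = ⊤ := by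
    apply vectorSpan_eq_top_of_axes (a := 4 * x) (b := 4 * y) (c := 4 * z) (by positivity)
      (by positivity) (by positivity)
    · have e : (!₂[4 * x, 0, 0] : E3) = (pt x y z -ᵥ pt (-x) y (-z))
          + (pt x (-y) (-z) -ᵥ pt (-x) (-y) z) := by
        apply ext3 <;> simp [pt]; ring
      rw [e]
      exact Submodule.add_mem _ (vsub_mem_vectorSpan ℝ m0 m2) (vsub_mem_vectorSpan ℝ m1 m3)
    · have e : (!₂[0, 4 * y, 0] : E3) = (pt x y z -ᵥ pt x (-y) (-z))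
          + (pt (-x) y (-z) -ᵥ pt (-x) (-y) z) := by
        apply ext3 <;> simp [pt]; ring
      rw [e]
      exact Submodule.add_mem _ (vsub_mem_vectorSpan ℝ m0 m1) (vsub_mem_vectorSpan ℝ m2 m3)
    · have e : (!₂[0, 0, 4 * z] : E3) = (pt x y z -ᵥ pt x (-y) (-z))
          + (pt (-x) (-y) z -ᵥ pt (-x) y (-z)) := by
        apply ext3 <;> simp [pt]; ring
      rw [e]
      exact Submodule.add_mem _ (vsub_mem_vectorSpan ℝ m0 m1) (vsub_mem_vectorSpan ℝ m3 m2)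
  refine ex_of_list hfin hne htop
    [(pt (-x) (-y) z, pt (-x) y (-z), pt x (-y) (-z)), (pt (-x) y (-z), pt (-x) (-y) z, pt x y z),
      (pt x (-y) (-z), pt x y z, pt (-x) (-y) z), (pt x y z, pt x (-y) (-z), pt (-x) y (-z))] ?_ ?_
  · intro t ht
    simp only [List.mem_cons, List.not_mem_nil, or_false] at ht
    rw [dAB, dBC, dCA]
    rcases ht with rfl | rfl | rfl | rfl <;> refine ⟨?_, ?_, ?_⟩ <;> simp [dt, pt] <;> ring
  · intro n hn0
    have cases4 : ∀ w ∈ Mx S n, w = pt x y z ∨ w = pt x (-y) (-z) ∨ w = pt (-x) y (-z) ∨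
        w = pt (-x) (-y) z := fun w hw => by simpa [hS] using hw.1
    by_cases a0 : pt x y z ∈ Mx S n
    · by_cases a1 : pt x (-y) (-z) ∈ Mx S n
      · by_cases a2 : pt (-x) y (-z) ∈ Mx S n
        · by_cases a3 : pt (-x) (-y) z ∈ Mx S n
          · exfalso
            have b1 := a0.2 _ m1
            have b2 := a1.2 _ m2
            have b3 := a2.2 _ m3
            have b4 := a3.2 _ m0
            simp [dt, pt] at b1 b2 b3 b4
            have c0 : n 0 * x = 0 := by linarith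
            have c1 : n 1 * y = 0 := by linarith
            have c2 : n 2 * z = 0 := by linarith
            exact hn0 (ext3 ((mul_eq_zero.mp c0).resolve_right hx.ne')
              ((mul_eq_zero.mp c1).resolve_right hy.ne') ((mul_eq_zero.mp c2).resolve_right hz.ne'))
          · refine ⟨(pt x y z, pt x (-y) (-z), pt (-x) y (-z)), by simp, fun w hw => ?_⟩
            rcases cases4 w hw with rfl | rfl | rfl | rfl <;> first | exact absurd hw a3 | simp
        · refine ⟨(pt x (-y) (-z), pt x y z, pt (-x) (-y) z), by simp, fun w hw => ?_⟩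
          rcases cases4 w hw with rfl | rfl | rfl | rfl <;> first | exact absurd hw a2 | simp
      · refine ⟨(pt (-x) y (-z), pt (-x) (-y) z, pt x y z), by simp, fun w hw => ?_⟩
        rcases cases4 w hw with rfl | rfl | rfl | rfl <;> first | exact absurd hw a1 | simp
    · refine ⟨(pt (-x) (-y) z, pt (-x) y (-z), pt x (-y) (-z)), by simp, fun w hw => ?_⟩
      rcases cases4 w hw with rfl | rfl | rfl | rfl <;> first | exact absurd hw a0 | simp

/-- the triangular bipyramid, apex at `A` -/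
lemma ex_bip {A B C : E3} (hBC : 0 < dist B C) (hiso : dist C A = dist A B)
    (hlt : dist B C ^ 2 < 3 * dist C A ^ 2) : Ex 6 A B C := by
  obtain ⟨u, hu, hu2⟩ : ∃ u : ℝ, 0 < u ∧ u ^ 2 = dist B C ^ 2 / 12 :=
    ⟨_, Real.sqrt_pos.mpr (by positivity), Real.sq_sqrt (by positivity)⟩
  obtain ⟨h, hh, hh2⟩ : ∃ h : ℝ, 0 < h ∧ h ^ 2 = dist C A ^ 2 - dist B C ^ 2 / 3 :=
    ⟨_, Real.sqrt_pos.mpr (by linarith), Real.sq_sqrt (by linarith)⟩
  obtain ⟨s, hs, hs2⟩ : ∃ s : ℝ, 0 < s ∧ s ^ 2 = 3 * u ^ 2 :=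
    ⟨_, Real.sqrt_pos.mpr (by positivity), Real.sq_sqrt (by positivity)⟩
  have dBC : dist B C ^ 2 = 12 * u ^ 2 := by linarith
  have dCA : dist C A ^ 2 = 4 * u ^ 2 + h ^ 2 := by linarith
  have dAB : dist A B ^ 2 = 4 * u ^ 2 + h ^ 2 := by rw [← hiso, dCA]
  set S : Set E3 := {pt 0 0 h, pt 0 0 (-h), pt (2 * u) 0 0, pt (-u) s 0, pt (-u) (-s) 0} with hS
  have hfin : S.Finite := by simp [hS]
  have hne : S.Nonempty := ⟨pt 0 0 h, by simp [hS]⟩
  have m0 : pt 0 0 h ∈ S := by simp [hS]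
  have m1 : pt 0 0 (-h) ∈ S := by simp [hS]
  have m2 : pt (2 * u) 0 0 ∈ S := by simp [hS]
  have m3 : pt (-u) s 0 ∈ S := by simp [hS]
  have m4 : pt (-u) (-s) 0 ∈ S := by simp [hS]
  have htop : vectorSpan ℝ S = ⊤ := by
    apply vectorSpan_eq_top_of_axes (a := 6 * u) (b := 2 * s) (c := 2 * h) (by positivity)
      (by positivity) (by positivity)
    · have e : (!₂[6 * u, 0, 0] : E3) = (pt (2 * u) 0 0 -ᵥ pt (-u) s 0)
          + (pt (2 * u) 0 0 -ᵥ pt (-u) (-s) 0) := by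
        apply ext3 <;> simp [pt]; ring
      rw [e]
      exact Submodule.add_mem _ (vsub_mem_vectorSpan ℝ m2 m3) (vsub_mem_vectorSpan ℝ m2 m4)
    · have e : (!₂[0, 2 * s, 0] : E3) = pt (-u) s 0 -ᵥ pt (-u) (-s) 0 := by
        apply ext3 <;> simp [pt]; ring
      rw [e]
      exact vsub_mem_vectorSpan ℝ m3 m4
    · have e : (!₂[0, 0, 2 * h] : E3) = pt 0 0 h -ᵥ pt 0 0 (-h) := by
        apply ext3 <;> simp [pt]; ring
      rw [e]
      exact vsub_mem_vectorSpan ℝ m0 m1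
  refine ex_of_list hfin hne htop
    [(pt 0 0 h, pt (2 * u) 0 0, pt (-u) s 0), (pt 0 0 h, pt (-u) s 0, pt (-u) (-s) 0),
      (pt 0 0 h, pt (-u) (-s) 0, pt (2 * u) 0 0), (pt 0 0 (-h), pt (2 * u) 0 0, pt (-u) s 0),
      (pt 0 0 (-h), pt (-u) s 0, pt (-u) (-s) 0),
      (pt 0 0 (-h), pt (-u) (-s) 0, pt (2 * u) 0 0)] ?_ ?_
  · intro t ht
    simp only [List.mem_cons, List.not_mem_nil, or_false] at ht
    rw [dAB, dBC, dCA]
    rcases ht with rfl | rfl | rfl | rfl | rfl | rfl <;> refine ⟨?_, ?_, ?_⟩ <;>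
      simp [dt, pt] <;> nlinarith
  · intro n hn0
    have cases5 : ∀ w ∈ Mx S n, w = pt 0 0 h ∨ w = pt 0 0 (-h) ∨ w = pt (2 * u) 0 0 ∨
        w = pt (-u) s 0 ∨ w = pt (-u) (-s) 0 := fun w hw => by simpa [hS] using hw.1
    have key : ∀ x ∈ Mx S n, n 2 * h ≤ dt n x ∧ - (n 2 * h) ≤ dt n x ∧
        2 * (n 0 * u) ≤ dt n x ∧ - (n 0 * u) + n 1 * s ≤ dt n x ∧
        - (n 0 * u) - n 1 * s ≤ dt n x := by
      intro x hx
      have a1 := hx.2 _ m0
      have a2 := hx.2 _ m1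
      have a3 := hx.2 _ m2
      have a4 := hx.2 _ m3
      have a5 := hx.2 _ m4
      generalize dt n x = M at *
      simp [dt, pt] at a1 a2 a3 a4 a5
      refine ⟨?_, ?_, ?_, ?_, ?_⟩ <;> linarith
    have fin : n 0 * u = 0 → n 1 * s = 0 → n 2 * h = 0 → False := by
      intro c0 c1 c2
      exact hn0 (ext3 ((mul_eq_zero.mp c0).resolve_right hu.ne')
        ((mul_eq_zero.mp c1).resolve_right hs.ne') ((mul_eq_zero.mp c2).resolve_right hh.ne'))
    have v0 : dt n (pt 0 0 h) = n 2 * h := by simp [dt, pt]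
    have v1 : dt n (pt 0 0 (-h)) = - (n 2 * h) := by simp [dt, pt]
    have v2 : dt n (pt (2 * u) 0 0) = 2 * (n 0 * u) := by simp [dt, pt]; ring
    have v3 : dt n (pt (-u) s 0) = - (n 0 * u) + n 1 * s := by simp [dt, pt]
    have v4 : dt n (pt (-u) (-s) 0) = - (n 0 * u) - n 1 * s := by simp [dt, pt]; ring
    have hN : ¬ (pt 0 0 h ∈ Mx S n ∧ pt 0 0 (-h) ∈ Mx S n) := by
      rintro ⟨k1, k2⟩
      obtain ⟨a1, a2, a3, a4, a5⟩ := key _ k1
      obtain ⟨b1, b2, b3, b4, b5⟩ := key _ k2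
      rw [v0] at a1 a2 a3 a4 a5
      rw [v1] at b1 b2 b3 b4 b5
      apply fin <;> linarith
    have hB : ¬ (pt (2 * u) 0 0 ∈ Mx S n ∧ pt (-u) s 0 ∈ Mx S n ∧ pt (-u) (-s) 0 ∈ Mx S n) := by
      rintro ⟨k1, k2, k3⟩
      obtain ⟨a1, a2, a3, a4, a5⟩ := key _ k1
      obtain ⟨b1, b2, b3, b4, b5⟩ := key _ k2
      obtain ⟨c1, c2, c3, c4, c5⟩ := key _ k3
      rw [v2] at a1 a2 a3 a4 a5
      rw [v3] at b1 b2 b3 b4 b5
      rw [v4] at c1 c2 c3 c4 c5
      apply fin <;> linarith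
    obtain ⟨X, hX, hXm⟩ : ∃ X, (X = pt 0 0 h ∨ X = pt 0 0 (-h)) ∧
        (pt 0 0 h ∈ Mx S n → pt 0 0 h = X) ∧ (pt 0 0 (-h) ∈ Mx S n → pt 0 0 (-h) = X) := by
      by_cases a : pt 0 0 h ∈ Mx S n
      · exact ⟨_, Or.inl rfl, fun _ => rfl, fun b => absurd ⟨a, b⟩ hN⟩
      · exact ⟨_, Or.inr rfl, fun b => absurd b a, fun _ => rfl⟩
    by_cases a2 : pt (2 * u) 0 0 ∈ Mx S n
    · by_cases a3 : pt (-u) s 0 ∈ Mx S n
      · refine ⟨(X, pt (2 * u) 0 0, pt (-u) s 0), by rcases hX with rfl | rfl <;> simp,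
          fun w hw => ?_⟩
        rcases cases5 w hw with rfl | rfl | rfl | rfl | rfl
        · exact Or.inl (hXm.1 hw)
        · exact Or.inl (hXm.2 hw)
        · simp
        · simp
        · exact absurd ⟨a2, a3, hw⟩ hB
      · refine ⟨(X, pt (-u) (-s) 0, pt (2 * u) 0 0), by rcases hX with rfl | rfl <;> simp,
          fun w hw => ?_⟩
        rcases cases5 w hw with rfl | rfl | rfl | rfl | rfl
        · exact Or.inl (hXm.1 hw)
        · exact Or.inl (hXm.2 hw)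
        · simp
        · exact absurd hw a3
        · simp
    · refine ⟨(X, pt (-u) s 0, pt (-u) (-s) 0), by rcases hX with rfl | rfl <;> simp,
        fun w hw => ?_⟩
      rcases cases5 w hw with rfl | rfl | rfl | rfl | rfl
      · exact Or.inl (hXm.1 hw)
      · exact Or.inl (hXm.2 hw)
      · exact absurd hw a2
      · simp
      · simp

end Pool.Agent.P.MP_fb3fae_co
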