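import Pool.Agent.P.MP_fb3fae_co.Few3

namespace Pool.Agent.P.MP_fb3fae_co

open Set

lemma angle_lt_iff' {A B C : E3} (h0 : 0 < dist A B) (h : dist A B = dist B C) :
    EuclideanGeometry.angle A B C < 2 * Real.pi / 3 ↔ dist C A ^ 2 < 3 * dist A B ^ 2 := by
  have hc : Real.cos (2 * Real.pi / 3) = -(1 / 2) := by
    rw [show 2 * Real.pi / 3 = Real.pi - Real.pi / 3 by ring, Real.cos_pi_sub, Real.cos_pi_div_three]
  have hpi := Real.pi_pos
  have e1 : EuclideanGeometry.angle A B C < 2 * Real.pi / 3 ↔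
      Real.cos (2 * Real.pi / 3) < Real.cos (EuclideanGeometry.angle A B C) :=
    (Real.strictAntiOn_cos.lt_iff_gt ⟨by linarith, by linarith⟩
      ⟨EuclideanGeometry.angle_nonneg _ _ _, EuclideanGeometry.angle_le_pi _ _ _⟩).symm
  have e2 := EuclideanGeometry.law_cos A B C
  rw [dist_comm C B, ← h, dist_comm A C] at e2
  rw [e1, hc]
  have hp := mul_pos h0 h0
  constructor
  · intro k
    nlinarith
  · intro k
    by_contra hk
    have := not_lt.mp hk
    nlinarith

theorem few_main (A B C : E3) (hT : AffineIndependent ℝ ![A, B, C]) :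
    IsLeast {n : ℕ | ∃ P : Set E3, IsConvexPolyhedron P ∧
        (∀ F, IsTwoFace P F → ∃ φ : E3 ≃ᵢ E3, F = φ '' convexHull ℝ {A, B, C}) ∧
        {F | IsTwoFace P F}.ncard = n}
      (if EuclideanGeometry.angle A B C < Real.pi / 2 ∧ EuclideanGeometry.angle B C A < Real.pi / 2 ∧
          EuclideanGeometry.angle C A B < Real.pi / 2 then 4
        else if (dist A B = dist B C ∧ EuclideanGeometry.angle A B C < 2 * Real.pi / 3) ∨
          (dist B C = dist C A ∧ EuclideanGeometry.angle B C A < 2 * Real.pi / 3) ∨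
          (dist C A = dist A B ∧ EuclideanGeometry.angle C A B < 2 * Real.pi / 3) then 6
        else 8) := by
  have hn := cr_ne_zero_of_affineIndependent hT
  have hn2 : cr (C - B) (A - B) ≠ 0 := by rwa [cr_rot]
  have hn3 : cr (A - C) (B - C) ≠ 0 := by rwa [cr_rot]
  have p1 : 0 < dist A B := dist_pos.mpr (sub_ne_zero.mp (ne_zero_right hn2))
  have p2 : 0 < dist B C := dist_pos.mpr (sub_ne_zero.mp (ne_zero_right hn3))
  have p3 : 0 < dist C A := dist_pos.mpr (sub_ne_zero.mp (ne_zero_right hn))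
  have eac : (EuclideanGeometry.angle A B C < Real.pi / 2 ∧
      EuclideanGeometry.angle B C A < Real.pi / 2 ∧ EuclideanGeometry.angle C A B < Real.pi / 2) ↔
      Ac (dist A B) (dist B C) (dist C A) := by
    rw [angle_lt_iff (ne_zero_right hn2) (ne_zero_left hn2),
      angle_lt_iff (ne_zero_right hn3) (ne_zero_left hn3),
      angle_lt_iff (ne_zero_right hn) (ne_zero_left hn)]
    rfl
  have eis : ((dist A B = dist B C ∧ EuclideanGeometry.angle A B C < 2 * Real.pi / 3) ∨
      (dist B C = dist C A ∧ EuclideanGeometry.angle B C A < 2 * Real.pi / 3) ∨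
      (dist C A = dist A B ∧ EuclideanGeometry.angle C A B < 2 * Real.pi / 3)) ↔
      Is (dist A B) (dist B C) (dist C A) :=
    or_congr (and_congr_right fun h => angle_lt_iff' p1 h)
      (or_congr (and_congr_right fun h => angle_lt_iff' p2 h)
        (and_congr_right fun h => angle_lt_iff' p3 h))
  have key : ∀ k : ℕ, Ex k A B C →
      (∀ V : Set E3, V.Finite → (interior (convexHull ℝ V)).Nonempty →
        AllFaces (convexHull ℝ V) A B C → k ≤ {F | IsTwoFace (convexHull ℝ V) F}.ncard) →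
      IsLeast {n : ℕ | ∃ P : Set E3, IsConvexPolyhedron P ∧
        (∀ F, IsTwoFace P F → ∃ φ : E3 ≃ᵢ E3, F = φ '' convexHull ℝ {A, B, C}) ∧
        {F | IsTwoFace P F}.ncard = n} k := by
    rintro k ⟨S, hS, hi, hall, hk⟩ hlow
    constructor
    · refine ⟨convexHull ℝ S, ⟨⟨hS.toFinset, by rw [hS.coe_toFinset]⟩, hi⟩, ?_,
        le_antisymm hk (hlow S hS hi hall)⟩
      intro F hF
      obtain ⟨X, Y, Z, e, d1, d2, d3⟩ := hall F hF.1 hF.2
      obtain ⟨φ, rfl, rfl, rfl⟩ := exists_isometry d1 d2 d3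
      exact ⟨φ, by rw [e, image_tri]⟩
    · rintro n ⟨P, ⟨⟨V, rfl⟩, hi⟩, h, rfl⟩
      refine hlow V V.finite_toSet hi fun F h1 h2 => ?_
      obtain ⟨φ, e⟩ := h F ⟨h1, h2⟩
      exact ⟨φ A, φ B, φ C, by rw [e, image_tri], (φ.dist_eq _ _).symm, (φ.dist_eq _ _).symm,
        (φ.dist_eq _ _).symm⟩
  split_ifs with h1 h2
  · exact key 4 (ex_disph (eac.mp h1)) fun V hV hi hall => (lower_tri hV hi hn hall).1
  · refine key 6 ?_ fun V hV hi hall => (lower_tri hV hi hn hall).2.1 (fun h => h1 (eac.mpr h))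
    rcases eis.mp h2 with ⟨e, k⟩ | ⟨e, k⟩ | ⟨e, k⟩
    · exact (ex_bip (A := B) (B := C) (C := A) p3 e k).rot
    · exact (ex_bip (A := C) (B := A) (C := B) p1 e k).rot.rot
    · exact ex_bip p2 e k
  · exact key 8 (ex_scal hn) fun V hV hi hall => (lower_tri hV hi hn hall).2.2
      (fun h => h1 (eac.mpr h)) (fun h => h2 (eis.mpr h))

end Pool.Agent.P.MP_fb3fae_co
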