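import Pool.Agent.P.MP_fb3fae_co.Chain

namespace Pool.Agent.P.MP_fb3fae_co

open Set InnerProductGeometry

/-- oriented face with prescribed side lengths -/
structure G (P : Set E3) (l1 l2 l3 : ℝ) (v p q : E3) : Prop where
  o : OFace P v p q
  d1 : dist v p = l1
  d2 : dist p q = l2
  d3 : dist q v = l3

lemma G.rot {P : Set E3} {l1 l2 l3 : ℝ} {v p q : E3} (h : G P l1 l2 l3 v p q) :
    G P l2 l3 l1 p q v := ⟨h.o.rot, h.d2, h.d3, h.d1⟩

/-- every face is an oriented triangle with side lengths `l1 l2 l3` -/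
def H (P : Set E3) (l1 l2 l3 : ℝ) : Prop :=
  ∀ F, IsExposed ℝ P F → Module.finrank ℝ (vectorSpan ℝ F) = 2 →
    ∃ X Y Z, F = convexHull ℝ {X, Y, Z} ∧ G P l1 l2 l3 X Y Z

lemma H.rot {P : Set E3} {l1 l2 l3 : ℝ} (h : H P l1 l2 l3) : H P l2 l3 l1 := by
  intro F hF hd
  obtain ⟨X, Y, Z, e, g⟩ := h F hF hd
  exact ⟨Y, Z, X, by rw [e, tri_rot], g.rot⟩

lemma D_tri {v p q r z : E3} (hz : z ∈ convexHull ℝ ({v, q, r} : Set E3))
    (h0 : D (p - v) (q - v) (r - v) = 0) : D (p - v) (q - v) (z - v) = 0 := by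
  obtain ⟨b, c, -, -, -, rfl⟩ := mem_tri_iff.mp hz
  have : D (p - v) (q - v) (v + b • (q - v) + c • (r - v) - v) = c * D (p - v) (q - v) (r - v) := by
    simp [D]; ring
  rw [this, h0, mul_zero]

lemma next_face {V : Set E3} (hV : V.Finite) (hi : (interior (convexHull ℝ V)).Nonempty)
    {l1 l2 l3 : ℝ} (h13 : l1 ≠ l3) (h23 : l2 ≠ l3) (hH : H (convexHull ℝ V) l1 l2 l3)
    {v p q : E3} (g : G (convexHull ℝ V) l1 l2 l3 v p q) :
    ∃ r, G (convexHull ℝ V) l3 l1 l2 v q r ∧ D (p - v) (q - v) (r - v) < 0 := by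
  have sub := subset_convexHull ℝ V
  set n := cr (p - v) (q - v) with hn
  have hn0 : n ≠ 0 := g.o.nd
  have hnn := dt_self_pos hn0
  have em : ∀ w, dt (cr n (q - v)) w = - D w (q - v) n := by
    intro w; simp only [dt, D, cr_0, cr_1, cr_2]; ring
  obtain ⟨μ, h1, z, hz, h2, h3⟩ := rotate hV n (cr n (q - v)) v
    (fun z hz => by rw [hn, dt_cr]; exact g.o.le z (sub hz))
    (fun z hz h => by
      rw [hn, dt_cr] at h
      obtain ⟨b, c, hb, -, -, rfl⟩ := mem_tri_iff.mp (g.o.mem_of_D (sub hz) h)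
      have : dt (cr n (q - v)) (v + b • (p - v) + c • (q - v) - v) = - (b * dt n n) := by
        simp only [hn, dt, cr_0, cr_1, cr_2, PiLp.add_apply, PiLp.sub_apply, PiLp.smul_apply,
          smul_eq_mul]
        ring
      rw [this]
      have := mul_nonneg hb hnn.le
      linarith) (not_flat hi hn0 v)
  set n' := cr n (q - v) + μ • n with hn'
  have hq0 : q - v ≠ 0 := ne_zero_right g.o.nd
  have hn'0 : n' ≠ 0 := by
    intro h
    have e : dt n' (p - v) = - dt n n := by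
      simp only [hn', hn, dt, cr_0, cr_1, cr_2, PiLp.add_apply, PiLp.smul_apply, smul_eq_mul]
      ring
    rw [h] at e
    have : dt 0 (p - v) = 0 := by simp [dt]
    linarith
  have mv : v ∈ Mx (convexHull ℝ V) n' := mem_Mx_hull h1 g.o.mem (by simp [dt])
  have mq : q ∈ Mx (convexHull ℝ V) n' := by
    refine mem_Mx_hull h1 g.o.rot.rot.mem ?_
    simp only [hn', hn, dt, cr_0, cr_1, cr_2, PiLp.add_apply, PiLp.smul_apply, smul_eq_mul]
    ring
  have mz : z ∈ Mx (convexHull ℝ V) n' := mem_Mx_hull h1 (sub hz) h3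
  rw [hn, dt_cr] at h2
  have hnd : cr (q - v) (z - v) ≠ 0 := by
    intro h
    have e : D (p - v) (q - v) (z - v) = dt (p - v) (cr (q - v) (z - v)) := by
      simp only [dt, D, cr_0, cr_1, cr_2]; ring
    rw [h] at e
    have : dt (p - v) 0 = 0 := by simp [dt]
    linarith
  obtain ⟨X, Y, Z, e, g'⟩ := hH _ (isExposed_Mx _ n') (finrank_Mx hn'0 mv mq mz hnd)
  have ext : ∀ x ∈ Mx (convexHull ℝ V) n', x ∈ (convexHull ℝ V).extremePoints ℝ →
      x = X ∨ x = Y ∨ x = Z := by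
    intro x hx hx'
    have h4 := inter_extremePoints_subset_extremePoints_of_subset (𝕜 := ℝ)
      (isExposed_Mx (convexHull ℝ V) n').subset ⟨hx, hx'⟩
    rw [e] at h4
    have h5 : x ∈ ({X, Y, Z} : Set E3) := extremePoints_convexHull_subset h4
    simpa using h5
  have hv' := ext v mv g.o.extreme
  have hq' := ext q mq g.o.rot.rot.extreme
  have d1 := g'.d1
  have d2 := g'.d2
  have d3 := g.d3
  rw [e] at mz
  rcases hv' with rfl | rfl | rfl <;> rcases hq' with rfl | rfl | rfl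
  · simp at hq0
  · rw [dist_comm] at d1; exact absurd (d1.symm.trans d3) h13
  · exfalso
    have a1 := g'.o.le p g.o.rot.mem
    have a2 := g.o.le Y g'.o.rot.mem
    have a3 : D (Y - v) (q - v) (p - v) = - D (p - v) (q - v) (Y - v) := by simp only [D]; ring
    have a4 : D (p - v) (q - v) (Y - v) = 0 := by linarith
    rw [pair_comm Y q] at mz
    have := D_tri mz a4
    linarith
  · exact absurd (d1.symm.trans d3) h13
  · simp at hq0
  · rw [dist_comm] at d2; exact absurd (d2.symm.trans d3) h23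
  · refine ⟨Y, g'.rot.rot, lt_of_le_of_ne (g.o.le Y g'.o.rot.mem) ?_⟩
    intro a4
    rw [tri_rot q Y v, tri_rot Y v q] at mz
    have := D_tri mz a4
    linarith
  · exact absurd (d2.symm.trans d3) h23
  · simp at hq0

lemma G.n1 {P : Set E3} {l1 l2 l3 : ℝ} {v p q : E3} (h : G P l1 l2 l3 v p q) : ‖p - v‖ = l1 := by
  rw [← h.d1, dist_comm, dist_eq_norm]

lemma G.n2 {P : Set E3} {l1 l2 l3 : ℝ} {v p q : E3} (h : G P l1 l2 l3 v p q) :
    ‖(p - v) - (q - v)‖ = l2 := by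
  rw [← h.d2, dist_eq_norm, sub_sub_sub_cancel_right]

lemma G.n3 {P : Set E3} {l1 l2 l3 : ℝ} {v p q : E3} (h : G P l1 l2 l3 v p q) : ‖q - v‖ = l3 := by
  rw [← h.d3, dist_eq_norm]

lemma gram_acute {x1 x2 x3 : E3} {l1 l2 l3 : ℝ} (hD : D x1 x2 x3 ≠ 0) (a1 : ‖x1‖ = l1)
    (a2 : ‖x2‖ = l3) (a3 : ‖x3‖ = l2) (a12 : ‖x1 - x2‖ = l2) (a23 : ‖x2 - x3‖ = l1)
    (a31 : ‖x3 - x1‖ = l3) :
    l3 ^ 2 < l1 ^ 2 + l2 ^ 2 ∧ l1 ^ 2 < l2 ^ 2 + l3 ^ 2 ∧ l2 ^ 2 < l3 ^ 2 + l1 ^ 2 := by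
  have b1 := norm_sq_eq_dt x1
  have b2 := norm_sq_eq_dt x2
  have b3 := norm_sq_eq_dt x3
  have b12 := norm_sq_eq_dt (x1 - x2)
  have b23 := norm_sq_eq_dt (x2 - x3)
  have b31 := norm_sq_eq_dt (x3 - x1)
  rw [a1] at b1; rw [a2] at b2; rw [a3] at b3; rw [a12] at b12; rw [a23] at b23; rw [a31] at b31
  have g12 : dt x1 x2 = (l1 ^ 2 + l3 ^ 2 - l2 ^ 2) / 2 := by
    have : dt (x1 - x2) (x1 - x2) = dt x1 x1 + dt x2 x2 - 2 * dt x1 x2 := by simp [dt]; ring
    linarith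
  have g23 : dt x2 x3 = (l3 ^ 2 + l2 ^ 2 - l1 ^ 2) / 2 := by
    have : dt (x2 - x3) (x2 - x3) = dt x2 x2 + dt x3 x3 - 2 * dt x2 x3 := by simp [dt]; ring
    linarith
  have g31 : dt x3 x1 = (l2 ^ 2 + l1 ^ 2 - l3 ^ 2) / 2 := by
    have : dt (x3 - x1) (x3 - x1) = dt x3 x3 + dt x1 x1 - 2 * dt x3 x1 := by simp [dt]; ring
    linarith
  have gram : D x1 x2 x3 ^ 2 = dt x1 x1 * dt x2 x2 * dt x3 x3 + 2 * dt x1 x2 * dt x2 x3 * dt x3 x1
      - dt x1 x1 * dt x2 x3 ^ 2 - dt x2 x2 * dt x3 x1 ^ 2 - dt x3 x3 * dt x1 x2 ^ 2 := by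
    simp only [D, dt]; ring
  rw [← b1, ← b2, ← b3, g12, g23, g31] at gram
  have hpos : 0 < D x1 x2 x3 ^ 2 := by positivity
  have hprod : 0 < (l1 ^ 2 + l2 ^ 2 - l3 ^ 2) * (l2 ^ 2 + l3 ^ 2 - l1 ^ 2)
      * (l3 ^ 2 + l1 ^ 2 - l2 ^ 2) := by
    have : (l1 ^ 2 + l2 ^ 2 - l3 ^ 2) * (l2 ^ 2 + l3 ^ 2 - l1 ^ 2) * (l3 ^ 2 + l1 ^ 2 - l2 ^ 2)
        = 2 * D x1 x2 x3 ^ 2 := by rw [gram]; ring
    linarith
  have s1 := sq_nonneg l1
  have s2 := sq_nonneg l2
  have s3 := sq_nonneg l3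
  generalize l1 ^ 2 = a at *
  generalize l2 ^ 2 = b at *
  generalize l3 ^ 2 = c at *
  refine ⟨?_, ?_, ?_⟩
  · by_contra hc
    have e1 : a + b - c ≤ 0 := by linarith
    have e2 : 0 ≤ (b + c - a) * (c + a - b) := mul_nonneg (by linarith) (by linarith)
    nlinarith [mul_nonpos_of_nonpos_of_nonneg e1 e2]
  · by_contra hc
    have e1 : b + c - a ≤ 0 := by linarith
    have e2 : 0 ≤ (a + b - c) * (c + a - b) := mul_nonneg (by linarith) (by linarith)
    nlinarith [mul_nonpos_of_nonpos_of_nonneg e1 e2]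
  · by_contra hc
    have e1 : c + a - b ≤ 0 := by linarith
    have e2 : 0 ≤ (a + b - c) * (b + c - a) := mul_nonneg (by linarith) (by linarith)
    nlinarith [mul_nonpos_of_nonpos_of_nonneg e1 e2]

theorem acute_of_H {V : Set E3} (hV : V.Finite) (hi : (interior (convexHull ℝ V)).Nonempty)
    {l1 l2 l3 : ℝ} (h12 : l1 ≠ l2) (h23 : l2 ≠ l3) (h31 : l3 ≠ l1)
    (hH : H (convexHull ℝ V) l1 l2 l3) :
    l3 ^ 2 < l1 ^ 2 + l2 ^ 2 ∧ l1 ^ 2 < l2 ^ 2 + l3 ^ 2 ∧ l2 ^ 2 < l3 ^ 2 + l1 ^ 2 := by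
  obtain ⟨F, hF, hd⟩ := exists_face hV hi
  obtain ⟨v, p1, p2, -, g1⟩ := hH F hF hd
  obtain ⟨p3, g2, c1⟩ := next_face hV hi h31.symm h23 hH g1
  obtain ⟨p4, g3, c2⟩ := next_face hV hi h23.symm h12 hH.rot.rot g2
  by_cases h41 : p4 = p1
  · subst h41
    exact gram_acute c1.ne g1.n1 g1.n3 g2.n3 g1.n2 g2.n2 g3.n2
  exfalso
  obtain ⟨p5, g4, c3⟩ := next_face hV hi h12.symm h31 hH.rot g3
  obtain ⟨p6, g5, c4⟩ := next_face hV hi h31.symm h23 hH g4
  obtain ⟨p7, g6, c5⟩ := next_face hV hi h23.symm h12 hH.rot.rot g5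
  have m1 := g1.o.rot.mem
  have m2 := g2.o.rot.mem
  have m7 := g6.o.rot.rot.mem
  have strict : ∀ {l l' l'' : ℝ} {p q : E3}, G (convexHull ℝ V) l l' l'' v p q → p ≠ p1 → p ≠ p2 →
      D (p1 - v) (p2 - v) (p - v) < 0 := by
    intro l l' l'' p q g k1 k2
    refine lt_of_le_of_ne (g1.o.le p g.o.rot.mem) ?_
    intro h0
    rcases g1.o.vertex_of_D g.o.rot.extreme h0 with h | h | h
    · exact ne_zero_left g.o.nd (sub_eq_zero.mpr h)
    · exact k1 h
    · exact k2 h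
  have h4 : D (p1 - v) (p2 - v) (p4 - v) < 0 := by
    refine strict g4 h41 ?_
    rintro rfl
    exact h31 (g1.n3.symm.trans g4.n1)
  have h5 : D (p1 - v) (p2 - v) (p5 - v) < 0 := by
    refine strict g5 ?_ ?_
    · rintro rfl
      exact h31 (g5.n1.symm.trans g1.n1)
    · rintro rfl
      have a1 := g4.o.le p1 m1
      have a3 : D (p4 - v) (p5 - v) (p1 - v) = - D (p1 - v) (p5 - v) (p4 - v) := by
        simp only [D]; ring
      linarith
  have h6 : D (p1 - v) (p2 - v) (p6 - v) < 0 := by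
    refine strict g6 ?_ ?_
    · rintro rfl
      exact h12 (g1.n1.symm.trans g6.n1)
    · rintro rfl
      exact h23 (g6.n1.symm.trans g1.n3)
  have key := chain6 c1 h4 h5 h6 (g1.o.le p7 m7) g3.o.nd g4.o.nd g5.o.nd g6.o.nd
    (g3.o.le p1 m1) (g4.o.le p1 m1) (g5.o.le p1 m1) (g6.o.le p1 m1)
    (g4.o.le p2 m2) (g5.o.le p2 m2) (g6.o.le p2 m2) c2 c3.le c4.le c5.le
  have t1 := three_angles (x1 := p1 - v) (x2 := p2 - v) (x3 := p3 - v) (x4 := p4 - v)
    (ne_zero_right g1.o.nd) (g2.n3.trans g1.n2.symm) (g2.n2.trans g1.n1.symm)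
    (g3.n3.trans g1.n1.symm) (g3.n2.trans g1.n3.symm)
  have t2 := three_angles (x1 := p4 - v) (x2 := p5 - v) (x3 := p6 - v) (x4 := p7 - v)
    (ne_zero_right g4.o.nd) (g5.n3.trans g4.n2.symm) (g5.n2.trans g4.n1.symm)
    (g6.n3.trans g4.n1.symm) (g6.n2.trans g4.n3.symm)
  linarith

/-- Every face is a directly congruent copy of `A B C`. -/
def AllFacesN (P : Set E3) (A B C : E3) : Prop :=
  ∀ F, IsExposed ℝ P F → Module.finrank ℝ (vectorSpan ℝ F) = 2 →
    ∃ X Y Z : E3, F = convexHull ℝ {X, Y, Z} ∧ dist A B = dist X Y ∧ dist B C = dist Y Z ∧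
      dist C A = dist Z X ∧ ∀ x ∈ P, D (Y - X) (Z - X) (x - X) ≤ 0

lemma D_rot' (X Y Z x : E3) : D (X - Z) (Y - Z) (x - Z) = D (Y - X) (Z - X) (x - X) := by
  simp [D]; ring

lemma AllFacesN.rot {P : Set E3} {A B C : E3} (h : AllFacesN P A B C) : AllFacesN P C A B := by
  intro F hF hd
  obtain ⟨X, Y, Z, e, h1, h2, h3, h4⟩ := h F hF hd
  refine ⟨Z, X, Y, by rw [e, tri_rot Z X Y], h3, h1, h2, fun x hx => ?_⟩
  rw [D_rot']; exact h4 x hx

lemma cr_ne_of_dist {A B C X Y Z : E3} (hn : cr (B - A) (C - A) ≠ 0) (h1 : dist A B = dist X Y)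
    (h2 : dist B C = dist Y Z) (h3 : dist C A = dist Z X) : cr (Y - X) (Z - X) ≠ 0 := by
  intro h0
  have e : ∀ A B C : E3, 4 * dt (cr (B - A) (C - A)) (cr (B - A) (C - A))
      = 4 * dist A B ^ 2 * dist C A ^ 2 - (dist A B ^ 2 + dist C A ^ 2 - dist B C ^ 2) ^ 2 := by
    intro A B C
    simp only [dist_sq, dt, cr_0, cr_1, cr_2, PiLp.sub_apply]; ring
  have a := e A B C
  have b := e X Y Z
  rw [h0] at b
  rw [h1, h2, h3, ← b] at a
  have := dt_self_pos hn
  have z : dt (0 : E3) 0 = 0 := by simp [dt]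
  linarith

lemma AllFacesN.toH {P : Set E3} {A B C : E3} (hn : cr (B - A) (C - A) ≠ 0)
    (h : AllFacesN P A B C) : H P (dist A B) (dist B C) (dist C A) := by
  intro F hF hd
  obtain ⟨X, Y, Z, e, h1, h2, h3, h4⟩ := h F hF hd
  exact ⟨X, Y, Z, e, ⟨cr_ne_of_dist hn h1 h2 h3, e ▸ hF, h4⟩, h1.symm, h2.symm, h3.symm⟩

/-- isosceles case, apex at `A` -/
lemma iso_exists {A B C : E3} (hn : cr (B - A) (C - A) ≠ 0) (hiso : dist C A = dist A B) :
    ∃ V : Finset E3, (interior (convexHull ℝ (V : Set E3))).Nonempty ∧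
      AllFacesN (convexHull ℝ (V : Set E3)) A B C := by
  obtain ⟨V, hi, hall⟩ := scal_exists hn
  refine ⟨V, hi, fun F hF hd => ?_⟩
  obtain ⟨X, Y, Z, e, h1, h2, h3⟩ := hall F hF hd
  have hne : (V : Set E3).Nonempty := by
    obtain ⟨x, hx⟩ := hi
    exact convexHull_nonempty_iff.mp ⟨x, interior_subset hx⟩
  have htop : vectorSpan ℝ (V : Set E3) = ⊤ := by
    rwa [interior_convexHull_nonempty_iff_affineSpan_eq_top,
      AffineSubspace.affineSpan_eq_top_iff_vectorSpan_eq_top_of_nonempty ℝ E3 E3 hne] at hi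
  obtain ⟨n, hn0, hFn, -⟩ := face_hull V.finite_toSet hne htop hF hd
  rcases oface_or (cr_ne_of_dist hn h1 h2 h3) hn0 (e.symm.trans hFn) with h | h
  · exact ⟨X, Y, Z, e, h1, h2, h3, h⟩
  · refine ⟨X, Z, Y, by rw [e, pair_comm Y Z], ?_, ?_, ?_, h⟩
    · rw [← hiso, h3, dist_comm]
    · rw [h2, dist_comm]
    · rw [hiso, h1, dist_comm]

noncomputable def pt (x y z : ℝ) : E3 := !₂[x, y, z]

/-- acute case: the disphenoid -/
lemma acute_exists {A B C : E3} (h1 : dist C A ^ 2 < dist A B ^ 2 + dist B C ^ 2)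
    (h2 : dist A B ^ 2 < dist B C ^ 2 + dist C A ^ 2)
    (h3 : dist B C ^ 2 < dist C A ^ 2 + dist A B ^ 2) :
    ∃ V : Finset E3, (interior (convexHull ℝ (V : Set E3))).Nonempty ∧
      AllFacesN (convexHull ℝ (V : Set E3)) A B C := by
  obtain ⟨x, hx, hx2⟩ : ∃ x : ℝ, 0 < x ∧ x ^ 2 = (dist B C ^ 2 + dist C A ^ 2 - dist A B ^ 2) / 8 :=
    ⟨_, Real.sqrt_pos.mpr (by linarith), Real.sq_sqrt (by linarith)⟩
  obtain ⟨y, hy, hy2⟩ : ∃ x : ℝ, 0 < x ∧ x ^ 2 = (dist A B ^ 2 + dist B C ^ 2 - dist C A ^ 2) / 8 :=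
    ⟨_, Real.sqrt_pos.mpr (by linarith), Real.sq_sqrt (by linarith)⟩
  obtain ⟨z, hz, hz2⟩ : ∃ x : ℝ, 0 < x ∧ x ^ 2 = (dist C A ^ 2 + dist A B ^ 2 - dist B C ^ 2) / 8 :=
    ⟨_, Real.sqrt_pos.mpr (by linarith), Real.sq_sqrt (by linarith)⟩
  have dAB : dist A B ^ 2 = 4 * y ^ 2 + 4 * z ^ 2 := by linarith
  have dBC : dist B C ^ 2 = 4 * x ^ 2 + 4 * y ^ 2 := by linarith
  have dCA : dist C A ^ 2 = 4 * x ^ 2 + 4 * z ^ 2 := by linarith
  have hxyz : 0 < x * y * z := by positivity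
  classical
  set S : Set E3 := {pt x y z, pt x (-y) (-z), pt (-x) y (-z), pt (-x) (-y) z} with hS
  have hfin : S.Finite := by simp [hS]
  have hne : S.Nonempty := ⟨pt x y z, by simp [hS]⟩
  have m0 : pt x y z ∈ S := by simp [hS]
  have m1 : pt x (-y) (-z) ∈ S := by simp [hS]
  have m2 : pt (-x) y (-z) ∈ S := by simp [hS]
  have m3 : pt (-x) (-y) z ∈ S := by simp [hS]
  have htop : vectorSpan ℝ S = ⊤ := by
    apply vectorSpan_eq_top_of_axes (a := 4 * x) (b := 4 * y) (c := 4 * z) (by positivity)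
      (by positivity) (by positivity)
    · have := Submodule.add_mem _ (vsub_mem_vectorSpan ℝ m0 m2) (vsub_mem_vectorSpan ℝ m1 m3)
      convert this using 1
      apply ext3 <;> simp [pt]; ring
    · have := Submodule.add_mem _ (vsub_mem_vectorSpan ℝ m0 m1) (vsub_mem_vectorSpan ℝ m2 m3)
      convert this using 1
      apply ext3 <;> simp [pt]; ring
    · have := Submodule.add_mem _ (vsub_mem_vectorSpan ℝ m0 m1) (vsub_mem_vectorSpan ℝ m3 m2)
      convert this using 1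
      apply ext3 <;> simp [pt]; ring
  refine ⟨hfin.toFinset, ?_, ?_⟩
  · rw [hfin.coe_toFinset]; exact interior_nonempty_of_top hne htop
  rw [hfin.coe_toFinset]
  intro F hF hd
  obtain ⟨n, hn0, hFM, hFn⟩ := face_hull hfin hne htop hF hd
  have fin : ∀ X Y Z : E3, Mx S n ⊆ {X, Y, Z} → dt (X - Y) (X - Y) = 4 * y ^ 2 + 4 * z ^ 2 →
      dt (Y - Z) (Y - Z) = 4 * x ^ 2 + 4 * y ^ 2 → dt (Z - X) (Z - X) = 4 * x ^ 2 + 4 * z ^ 2 →
      (∀ w ∈ S, D (Y - X) (Z - X) (w - X) ≤ 0) →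
      ∃ X Y Z : E3, F = convexHull ℝ {X, Y, Z} ∧ dist A B = dist X Y ∧ dist B C = dist Y Z ∧
        dist C A = dist Z X ∧ ∀ w ∈ convexHull ℝ S, D (Y - X) (Z - X) (w - X) ≤ 0 := by
    intro X Y Z hsub e1 e2 e3 e4
    refine ⟨X, Y, Z, ?_, ?_, ?_, ?_, ?_⟩
    · rw [hFn] at hd ⊢
      exact hull_eq_tri hsub hd
    · exact (dist_eq_of_sq dist_nonneg (by rw [e1, dAB])).symm
    · exact (dist_eq_of_sq dist_nonneg (by rw [e2, dBC])).symm
    · exact (dist_eq_of_sq dist_nonneg (by rw [e3, dCA])).symm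
    · intro w hw
      have := dt_le_of_hull (V := S) (n := cr (Y - X) (Z - X)) (M := dt (cr (Y - X) (Z - X)) X)
        (fun u hu => by have := e4 u hu; rw [← dt_cr, dt_sub] at this; linarith) w hw
      rw [← dt_cr, dt_sub]; linarith
  have cases4 : ∀ w ∈ S, w = pt x y z ∨ w = pt x (-y) (-z) ∨ w = pt (-x) y (-z) ∨
      w = pt (-x) (-y) z := fun w hw => by simpa [hS] using hw
  by_cases a3 : pt (-x) (-y) z ∈ Mx S n
  · by_cases a2 : pt (-x) y (-z) ∈ Mx S n
    · by_cases a1 : pt x (-y) (-z) ∈ Mx S n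
      · by_cases a0 : pt x y z ∈ Mx S n
        · exfalso
          have : Mx S n = S := by
            apply Subset.antisymm (fun _ h => h.1)
            intro w hw
            rcases cases4 w hw with rfl | rfl | rfl | rfl <;> assumption
          rw [hFn, this, vectorSpan_hull, htop] at hd
          simp at hd
        · apply fin (pt (-x) (-y) z) (pt (-x) y (-z)) (pt x (-y) (-z))
          · intro w hw
            rcases cases4 w hw.1 with rfl | rfl | rfl | rfl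
            · exact absurd hw a0
            all_goals simp
          · simp [dt, pt]; ring
          · simp [dt, pt]; ring
          · simp [dt, pt]; ring
          · intro w hw
            rcases cases4 w hw with rfl | rfl | rfl | rfl <;> simp [D, pt] <;> nlinarith
      · apply fin (pt (-x) y (-z)) (pt (-x) (-y) z) (pt x y z)
        · intro w hw
          rcases cases4 w hw.1 with rfl | rfl | rfl | rfl
          · simp
          · exact absurd hw a1
          all_goals simp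
        · simp [dt, pt]; ring
        · simp [dt, pt]; ring
        · simp [dt, pt]; ring
        · intro w hw
          rcases cases4 w hw with rfl | rfl | rfl | rfl <;> simp [D, pt] <;> nlinarith
    · apply fin (pt x (-y) (-z)) (pt x y z) (pt (-x) (-y) z)
      · intro w hw
        rcases cases4 w hw.1 with rfl | rfl | rfl | rfl
        · simp
        · simp
        · exact absurd hw a2
        · simp
      · simp [dt, pt]; ring
      · simp [dt, pt]; ring
      · simp [dt, pt]; ring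
      · intro w hw
        rcases cases4 w hw with rfl | rfl | rfl | rfl <;> simp [D, pt] <;> nlinarith
  · apply fin (pt x y z) (pt x (-y) (-z)) (pt (-x) y (-z))
    · intro w hw
      rcases cases4 w hw.1 with rfl | rfl | rfl | rfl
      · simp
      · simp
      · simp
      · exact absurd hw a3
    · simp [dt, pt]; ring
    · simp [dt, pt]; ring
    · simp [dt, pt]; ring
    · intro w hw
      rcases cases4 w hw with rfl | rfl | rfl | rfl <;> simp [D, pt] <;> nlinarith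

lemma angle_lt_iff {A B C : E3} (h1 : A - B ≠ 0) (h2 : C - B ≠ 0) :
    EuclideanGeometry.angle A B C < Real.pi / 2 ↔ dist C A ^ 2 < dist A B ^ 2 + dist B C ^ 2 := by
  unfold EuclideanGeometry.angle InnerProductGeometry.angle
  rw [Real.arccos_lt_pi_div_two, vsub_eq_sub, vsub_eq_sub,
    div_pos_iff_of_pos_right (mul_pos (norm_pos_iff.mpr h1) (norm_pos_iff.mpr h2)), inner_eq_dt]
  simp only [dist_sq]
  have : dt (A - B) (A - B) + dt (B - C) (B - C) - dt (C - A) (C - A) = 2 * dt (A - B) (C - B) := by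
    simp [dt]; ring
  constructor <;> intro h <;> linarith

theorem main2 (A B C : E3) (hT : AffineIndependent ℝ ![A, B, C]) :
    (∃ V : Finset E3, (interior (convexHull ℝ (V : Set E3))).Nonempty ∧
      ∀ F : Set E3, IsExposed ℝ (convexHull ℝ (V : Set E3)) F →
        Module.finrank ℝ (vectorSpan ℝ F) = 2 →
        ∃ φ : E3 ≃ᵢ E3, F = φ '' convexHull ℝ {A, B, C} ∧
          ∀ x ∈ convexHull ℝ (V : Set E3),
            crossProduct (φ B - φ A).ofLp (φ C - φ A).ofLp ⬝ᵥ (x - φ A).ofLp ≤ 0) ↔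
    ((dist A B = dist B C ∨ dist B C = dist C A ∨ dist C A = dist A B) ∨
      (EuclideanGeometry.angle A B C < Real.pi / 2 ∧ EuclideanGeometry.angle B C A < Real.pi / 2 ∧
        EuclideanGeometry.angle C A B < Real.pi / 2)) := by
  have hn := cr_ne_zero_of_affineIndependent hT
  have hn2 : cr (C - B) (A - B) ≠ 0 := by rwa [cr_rot]
  have hn3 : cr (A - C) (B - C) ≠ 0 := by rwa [cr_rot]
  rw [angle_lt_iff (ne_zero_right hn2) (ne_zero_left hn2),
    angle_lt_iff (ne_zero_right hn3) (ne_zero_left hn3),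
    angle_lt_iff (ne_zero_right hn) (ne_zero_left hn)]
  have equiv : ∀ P : Set E3, (∀ F : Set E3, IsExposed ℝ P F →
        Module.finrank ℝ (vectorSpan ℝ F) = 2 →
        ∃ φ : E3 ≃ᵢ E3, F = φ '' convexHull ℝ {A, B, C} ∧
          ∀ x ∈ P, crossProduct (φ B - φ A).ofLp (φ C - φ A).ofLp ⬝ᵥ (x - φ A).ofLp ≤ 0) ↔
        AllFacesN P A B C := by
    intro P
    constructor
    · intro h F hF hd
      obtain ⟨φ, e, h1⟩ := h F hF hd
      refine ⟨φ A, φ B, φ C, by rw [e, image_tri], (φ.dist_eq _ _).symm, (φ.dist_eq _ _).symm,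
        (φ.dist_eq _ _).symm, fun x hx => ?_⟩
      rw [← cross_eq_D]; exact h1 x hx
    · intro h F hF hd
      obtain ⟨X, Y, Z, e, d1, d2, d3, h1⟩ := h F hF hd
      obtain ⟨φ, rfl, rfl, rfl⟩ := exists_isometry d1 d2 d3
      refine ⟨φ, by rw [e, image_tri], fun x hx => ?_⟩
      rw [cross_eq_D]; exact h1 x hx
  simp only [equiv]
  constructor
  · rintro ⟨V, hi, h⟩
    by_cases h12 : dist A B = dist B C
    · exact Or.inl (Or.inl h12)
    by_cases h23 : dist B C = dist C A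
    · exact Or.inl (Or.inr (Or.inl h23))
    by_cases h31 : dist C A = dist A B
    · exact Or.inl (Or.inr (Or.inr h31))
    exact Or.inr (acute_of_H V.finite_toSet hi h12 h23 h31 (h.toH hn))
  · rintro ((h | h | h) | ⟨h1, h2, h3⟩)
    · obtain ⟨V, hi, hall⟩ := iso_exists (A := B) (B := C) (C := A) hn2 h
      exact ⟨V, hi, hall.rot⟩
    · obtain ⟨V, hi, hall⟩ := iso_exists (A := C) (B := A) (C := B) hn3 h
      exact ⟨V, hi, hall.rot.rot⟩
    · exact iso_exists hn h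
    · exact acute_exists h1 h2 h3

end Pool.Agent.P.MP_fb3fae_co
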