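import Pool.Agent.P.MP_fb3fae_co.Main2
import Pool.Agent.P.MP_fb3fae_co.Defs

namespace Pool.Agent.P.MP_fb3fae_co

theorem main3 (A B C : E3) (hT : AffineIndependent ℝ ![A, B, C]) :
    (∃ P : Set E3, IsConvexPolyhedron P ∧ ∀ F, IsTwoFace P F → IsOutwardCopy P F A B C) ↔
    ((dist A B = dist B C ∨ dist B C = dist C A ∨ dist C A = dist A B) ∨
      (EuclideanGeometry.angle A B C < Real.pi / 2 ∧ EuclideanGeometry.angle B C A < Real.pi / 2 ∧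
        EuclideanGeometry.angle C A B < Real.pi / 2)) := by
  rw [← main2 A B C hT]
  constructor
  · rintro ⟨P, ⟨⟨V, rfl⟩, hi⟩, h⟩
    exact ⟨V, hi, fun F h1 h2 => h F ⟨h1, h2⟩⟩
  · rintro ⟨V, hi, h⟩
    exact ⟨_, ⟨⟨V, rfl⟩, hi⟩, fun F hF => h F hF.1 hF.2⟩

end Pool.Agent.P.MP_fb3fae_co
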