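import Pool.Agent.P.MP_fb3fae_co.Basic

namespace Pool.Agent.P.MP_fb3fae_co

open Set

lemma dist_eq_of_sq {X Y : E3} {d : ℝ} (hd : 0 ≤ d) (h : dt (X - Y) (X - Y) = d ^ 2) :
    dist X Y = d := by
  rw [dist_eq_norm]
  rw [← norm_sq_eq_dt] at h
  exact (pow_left_inj₀ (norm_nonneg _) hd two_ne_zero).mp h

lemma dist_sq (X Y : E3) : dist X Y ^ 2 = dt (X - Y) (X - Y) := by
  rw [dist_eq_norm, norm_sq_eq_dt]

lemma vectorSpan_eq_top_of_axes {S : Set E3} {a b c : ℝ} (ha : a ≠ 0) (hb : b ≠ 0) (hc : c ≠ 0)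
    (h0 : (!₂[a, 0, 0] : E3) ∈ vectorSpan ℝ S) (h1 : (!₂[0, b, 0] : E3) ∈ vectorSpan ℝ S)
    (h2 : (!₂[0, 0, c] : E3) ∈ vectorSpan ℝ S) : vectorSpan ℝ S = ⊤ := by
  rw [eq_top_iff]
  intro x _
  have : x = (x 0 / a) • (!₂[a, 0, 0] : E3) + (x 1 / b) • (!₂[0, b, 0] : E3)
      + (x 2 / c) • (!₂[0, 0, c] : E3) := by
    apply ext3 <;> simp <;> field_simp
  rw [this]
  exact Submodule.add_mem _ (Submodule.add_mem _ (Submodule.smul_mem _ _ h0)
    (Submodule.smul_mem _ _ h1)) (Submodule.smul_mem _ _ h2)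

lemma interior_nonempty_of_top {S : Set E3} (hS : S.Nonempty) (h : vectorSpan ℝ S = ⊤) :
    (interior (convexHull ℝ S)).Nonempty := by
  rw [interior_convexHull_nonempty_iff_affineSpan_eq_top,
    AffineSubspace.affineSpan_eq_top_iff_vectorSpan_eq_top_of_nonempty ℝ E3 E3 hS, h]

lemma Mx_zero (P : Set E3) : Mx P 0 = P := by
  ext x; simp [Mx, dt]

/-- a face of a hull with full dimension comes from a nonzero vector and active generators -/
lemma face_hull {V : Set E3} (hV : V.Finite) (hne : V.Nonempty) (htop : vectorSpan ℝ V = ⊤)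
    {F : Set E3} (hF : IsExposed ℝ (convexHull ℝ V) F)
    (hd : Module.finrank ℝ (vectorSpan ℝ F) = 2) :
    ∃ n : E3, n ≠ 0 ∧ F = Mx (convexHull ℝ V) n ∧ F = convexHull ℝ (Mx V n) := by
  obtain ⟨n, hn⟩ := IsExposed_eq_Mx hF (nonempty_of_finrank hd)
  have hn0 : n ≠ 0 := by
    rintro rfl
    rw [hn, Mx_zero, vectorSpan_hull, htop] at hd
    simp at hd
  refine ⟨n, hn0, hn, ?_⟩
  rw [hn]
  apply Mx_hull
  obtain ⟨v, hv, hvm⟩ := Set.exists_max_image V (dt n) hV hne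
  exact ⟨v, hv, hvm⟩

/-- the six vertices of the tetragonal scalenohedron -/
noncomputable def pN (h : ℝ) : E3 := !₂[0, 0, h]
noncomputable def pA (r z : ℝ) : E3 := !₂[r, 0, z]
noncomputable def pB (r z : ℝ) : E3 := !₂[0, r, -z]

lemma scal_faces {h r z : ℝ} (hr : 0 < r) (hz1 : z < h) (hz2 : -h < z) (n : E3) (hn : n ≠ 0) :
    ∃ X Y Z : E3, (X = pN h ∨ X = pN (-h)) ∧ (Y = pA r z ∨ Y = pA (-r) z) ∧
      (Z = pB r z ∨ Z = pB (-r) z) ∧
      Mx {pN h, pN (-h), pA r z, pA (-r) z, pB r z, pB (-r) z} n ⊆ {X, Y, Z} := by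
  set V : Set E3 := {pN h, pN (-h), pA r z, pA (-r) z, pB r z, pB (-r) z} with hV
  have hh : 0 < h := by linarith
  have key : ∀ x ∈ Mx V n, n 2 * h ≤ dt n x ∧ - (n 2 * h) ≤ dt n x ∧
      n 0 * r + n 2 * z ≤ dt n x ∧ - (n 0 * r) + n 2 * z ≤ dt n x ∧
      n 1 * r - n 2 * z ≤ dt n x ∧ - (n 1 * r) - n 2 * z ≤ dt n x := by
    intro x hx
    have a1 := hx.2 (pN h) (by simp [hV])
    have a2 := hx.2 (pN (-h)) (by simp [hV])
    have a3 := hx.2 (pA r z) (by simp [hV])
    have a4 := hx.2 (pA (-r) z) (by simp [hV])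
    have a5 := hx.2 (pB r z) (by simp [hV])
    have a6 := hx.2 (pB (-r) z) (by simp [hV])
    generalize dt n x = M at *
    simp [dt, pN, pA, pB] at a1 a2 a3 a4 a5 a6
    refine ⟨?_, ?_, ?_, ?_, ?_, ?_⟩ <;> linarith
  have fin : n 0 = 0 → n 1 = 0 → n 2 = 0 → False := by
    intro h0 h1 h2
    exact hn (ext3 h0 h1 h2)
  have hN : ¬ (pN h ∈ Mx V n ∧ pN (-h) ∈ Mx V n) := by
    rintro ⟨m1, m2⟩
    obtain ⟨a1, a2, a3, a4, a5, a6⟩ := key _ m1
    obtain ⟨b1, b2, b3, b4, b5, b6⟩ := key _ m2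
    simp [dt, pN] at a1 a2 a3 a4 a5 a6 b1 b2 b3 b4 b5 b6
    have h2 : n 2 = 0 := by
      have : n 2 * h = 0 := by linarith
      rcases mul_eq_zero.mp this with h | h
      · exact h
      · linarith
    rw [h2] at a3 a4 a5 a6
    apply fin _ _ h2
    · nlinarith
    · nlinarith
  have hA : ¬ (pA r z ∈ Mx V n ∧ pA (-r) z ∈ Mx V n) := by
    rintro ⟨m1, m2⟩
    obtain ⟨a1, a2, a3, a4, a5, a6⟩ := key _ m1
    obtain ⟨b1, b2, b3, b4, b5, b6⟩ := key _ m2
    simp only [dt, pA] at a1 a2 a3 a4 a5 a6 b1 b2 b3 b4 b5 b6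
    simp at a1 a2 a3 a4 a5 a6 b1 b2 b3 b4 b5 b6
    have h0 : n 0 = 0 := by nlinarith
    rw [h0] at a1 a2 a5 a6
    have h2 : n 2 = 0 := by
      have e1 : n 2 * (h - z) ≤ 0 := by linarith
      have e2 : 0 ≤ n 2 * (h + z) := by linarith
      have f1 : n 2 ≤ 0 := by
        by_contra hc
        have := mul_pos (not_le.mp hc) (sub_pos.mpr hz1)
        linarith
      have f2 : 0 ≤ n 2 := by
        by_contra hc
        have := mul_pos_of_neg_of_neg (not_le.mp hc) (show -(h + z) < 0 by linarith)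
        linarith
      linarith
    rw [h2] at a5 a6
    apply fin h0 _ h2
    nlinarith
  have hB : ¬ (pB r z ∈ Mx V n ∧ pB (-r) z ∈ Mx V n) := by
    rintro ⟨m1, m2⟩
    obtain ⟨a1, a2, a3, a4, a5, a6⟩ := key _ m1
    obtain ⟨b1, b2, b3, b4, b5, b6⟩ := key _ m2
    simp only [dt, pB] at a1 a2 a3 a4 a5 a6 b1 b2 b3 b4 b5 b6
    simp at a1 a2 a3 a4 a5 a6 b1 b2 b3 b4 b5 b6
    have h1 : n 1 = 0 := by nlinarith
    rw [h1] at a1 a2 a3 a4
    have h2 : n 2 = 0 := by
      have e1 : n 2 * (h + z) ≤ 0 := by linarith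
      have e2 : 0 ≤ n 2 * (h - z) := by linarith
      have f1 : n 2 ≤ 0 := by
        by_contra hc
        have := mul_pos (not_le.mp hc) (show 0 < h + z by linarith)
        linarith
      have f2 : 0 ≤ n 2 := by
        by_contra hc
        have := mul_pos_of_neg_of_neg (not_le.mp hc) (show z - h < 0 by linarith)
        linarith
      linarith
    rw [h2] at a3 a4
    apply fin _ h1 h2
    nlinarith
  classical
  refine ⟨if pN h ∈ Mx V n then pN h else pN (-h), if pA r z ∈ Mx V n then pA r z else pA (-r) z,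
    if pB r z ∈ Mx V n then pB r z else pB (-r) z, ?_, ?_, ?_, ?_⟩
  · split_ifs <;> simp
  · split_ifs <;> simp
  · split_ifs <;> simp
  · intro x hx
    have hxV := hx.1
    simp only [hV, mem_insert_iff, mem_singleton_iff] at hxV ⊢
    rcases hxV with rfl | rfl | rfl | rfl | rfl | rfl
    · left; rw [if_pos hx]
    · left; rw [if_neg (fun h' => hN ⟨h', hx⟩)]
    · right; left; rw [if_pos hx]
    · right; left; rw [if_neg (fun h' => hA ⟨h', hx⟩)]
    · right; right; rw [if_pos hx]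
    · right; right; rw [if_neg (fun h' => hB ⟨h', hx⟩)]

/-- parameters of the scalenohedron for a triangle with an acute angle -/
lemma scal_params {p2 q2 d : ℝ} (hp : 0 < p2) (hq : 0 < q2) (hd : 0 < d) (hcs : d ^ 2 < p2 * q2) :
    ∃ h r z : ℝ, 0 < r ∧ z < h ∧ -h < z ∧ r ^ 2 + (h - z) ^ 2 = p2 ∧ r ^ 2 + (h + z) ^ 2 = q2 ∧
      2 * r ^ 2 + 4 * z ^ 2 = p2 + q2 - 2 * d := by
  set W := Real.sqrt (d ^ 2 + (q2 - p2) ^ 2 / 4) with hW
  have hW2 : W ^ 2 = d ^ 2 + (q2 - p2) ^ 2 / 4 := Real.sq_sqrt (by positivity)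
  have hW0 : 0 ≤ W := Real.sqrt_nonneg _
  have hWlt : W < (p2 + q2) / 2 := by
    by_contra hc
    have := not_lt.mp hc
    nlinarith
  set h := Real.sqrt ((W + d) / 2) with hh
  have hh2 : h ^ 2 = (W + d) / 2 := Real.sq_sqrt (by positivity)
  have hh0 : 0 < h := Real.sqrt_pos.mpr (by positivity)
  set r := Real.sqrt ((p2 + q2) / 2 - W) with hr
  have hr2 : r ^ 2 = (p2 + q2) / 2 - W := Real.sq_sqrt (by linarith)
  have hr0 : 0 < r := Real.sqrt_pos.mpr (by linarith)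
  set z := (q2 - p2) / (4 * h) with hz
  have hhz : 4 * h * z = q2 - p2 := by rw [hz]; field_simp
  have hz2 : z ^ 2 = (W - d) / 2 := by
    have e : h ^ 2 * (z ^ 2 - (W - d) / 2) = 0 := by
      have : h ^ 2 * z ^ 2 = (q2 - p2) ^ 2 / 16 := by rw [← hhz]; ring
      rw [mul_sub, this, hh2]
      linear_combination (-1 / 4) * hW2
    rcases mul_eq_zero.mp e with e | e
    · exact absurd e (by positivity)
    · linarith
  have hlt : z ^ 2 < h ^ 2 := by linarith
  have habs := abs_lt_of_sq_lt_sq hlt hh0.le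
  rw [abs_lt] at habs
  refine ⟨h, r, z, hr0, habs.2, habs.1, ?_, ?_, ?_⟩
  · nlinarith
  · nlinarith
  · nlinarith

/-- Every face of the polyhedron is a triangle with the side lengths of `A B C`. -/
def AllFaces (P : Set E3) (A B C : E3) : Prop :=
  ∀ F, IsExposed ℝ P F → Module.finrank ℝ (vectorSpan ℝ F) = 2 →
    ∃ X Y Z : E3, F = convexHull ℝ {X, Y, Z} ∧ dist A B = dist X Y ∧ dist B C = dist Y Z ∧
      dist C A = dist Z X

lemma AllFaces.rot {P : Set E3} {A B C : E3} (h : AllFaces P A B C) : AllFaces P C A B := by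
  intro F hF hd
  obtain ⟨X, Y, Z, e, h1, h2, h3⟩ := h F hF hd
  refine ⟨Z, X, Y, ?_, h3, h1, h2⟩
  rw [e]; congr 1; ext x; simp only [mem_insert_iff, mem_singleton_iff]; tauto

lemma cs_strict {u v : E3} (h : cr u v ≠ 0) : dt u v ^ 2 < dt u u * dt v v := by
  have := dt_self_pos h
  have e : dt (cr u v) (cr u v) = dt u u * dt v v - dt u v ^ 2 := by
    simp only [dt, cr_0, cr_1, cr_2]; ring
  linarith

lemma ne_zero_left {u v : E3} (h : cr u v ≠ 0) : u ≠ 0 := by
  rintro rfl; apply h; apply ext3 <;> simp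

lemma ne_zero_right {u v : E3} (h : cr u v ≠ 0) : v ≠ 0 := by
  rintro rfl; apply h; apply ext3 <;> simp

lemma scal_exists_acute {A B C : E3} (hn : cr (B - A) (C - A) ≠ 0)
    (hac : 0 < dt (B - A) (C - A)) :
    ∃ V : Finset E3, (interior (convexHull ℝ (V : Set E3))).Nonempty ∧
      AllFaces (convexHull ℝ (V : Set E3)) A B C := by
  obtain ⟨h, r, z, hr, hz1, hz2, e1, e2, e3⟩ := scal_params (dt_self_pos (ne_zero_left hn))
    (dt_self_pos (ne_zero_right hn)) hac (cs_strict hn)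
  have hh : 0 < h := by linarith
  have dAB : dist A B ^ 2 = r ^ 2 + (h - z) ^ 2 := by
    rw [e1, dist_sq]; simp [dt]; ring
  have dCA : dist C A ^ 2 = r ^ 2 + (h + z) ^ 2 := by
    rw [e2, dist_sq]
  have dBC : dist B C ^ 2 = 2 * r ^ 2 + 4 * z ^ 2 := by
    rw [e3, dist_sq]; simp [dt]; ring
  classical
  set S : Set E3 := {pN h, pN (-h), pA r z, pA (-r) z, pB r z, pB (-r) z} with hS
  have hfin : S.Finite := by simp [hS]
  have hne : S.Nonempty := ⟨pN h, by simp [hS]⟩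
  have htop : vectorSpan ℝ S = ⊤ := by
    apply vectorSpan_eq_top_of_axes (a := 2 * r) (b := 2 * r) (c := 2 * h) (by positivity)
      (by positivity) (by positivity)
    · have := vsub_mem_vectorSpan ℝ (s := S) (p₁ := pA r z) (p₂ := pA (-r) z) (by simp [hS])
        (by simp [hS])
      convert this using 1
      apply ext3 <;> simp [pA]; ring
    · have := vsub_mem_vectorSpan ℝ (s := S) (p₁ := pB r z) (p₂ := pB (-r) z) (by simp [hS])
        (by simp [hS])
      convert this using 1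
      apply ext3 <;> simp [pB]; ring
    · have := vsub_mem_vectorSpan ℝ (s := S) (p₁ := pN h) (p₂ := pN (-h)) (by simp [hS])
        (by simp [hS])
      convert this using 1
      apply ext3 <;> simp [pN]; ring
  refine ⟨hfin.toFinset, ?_, ?_⟩
  · rw [hfin.coe_toFinset]; exact interior_nonempty_of_top hne htop
  rw [hfin.coe_toFinset]
  intro F hF hd
  obtain ⟨n, hn0, -, hFn⟩ := face_hull hfin hne htop hF hd
  obtain ⟨X, Y, Z, hX, hY, hZ, hsub⟩ := scal_faces hr hz1 hz2 n hn0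
  have hFe : F = convexHull ℝ {X, Y, Z} := by
    rw [hFn] at hd ⊢
    exact hull_eq_tri hsub hd
  rcases hX with rfl | rfl
  · refine ⟨_, Y, Z, hFe, ?_, ?_, ?_⟩ <;> symm <;> apply dist_eq_of_sq dist_nonneg
    · rw [dAB]; rcases hY with rfl | rfl <;> simp [dt, pN, pA] <;> ring
    · rw [dBC]; rcases hY with rfl | rfl <;> rcases hZ with rfl | rfl <;> simp [dt, pA, pB] <;> ring
    · rw [dCA]; rcases hZ with rfl | rfl <;> simp [dt, pN, pB] <;> ring
  · refine ⟨pN (-h), Z, Y, ?_, ?_, ?_, ?_⟩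
    · rw [hFe, pair_comm Y Z]
    all_goals symm; apply dist_eq_of_sq dist_nonneg
    · rw [dAB]; rcases hZ with rfl | rfl <;> simp [dt, pN, pB] <;> ring
    · rw [dBC]; rcases hY with rfl | rfl <;> rcases hZ with rfl | rfl <;> simp [dt, pA, pB] <;> ring
    · rw [dCA]; rcases hY with rfl | rfl <;> simp [dt, pN, pA] <;> ring

lemma cr_rot (A B C : E3) : cr (C - B) (A - B) = cr (B - A) (C - A) := by
  apply ext3 <;> simp <;> ring

lemma scal_exists {A B C : E3} (hn : cr (B - A) (C - A) ≠ 0) :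
    ∃ V : Finset E3, (interior (convexHull ℝ (V : Set E3))).Nonempty ∧
      AllFaces (convexHull ℝ (V : Set E3)) A B C := by
  by_cases hac : 0 < dt (B - A) (C - A)
  · exact scal_exists_acute hn hac
  · have h1 : 0 < dt (C - B) (A - B) := by
      have := dt_self_pos (ne_zero_left hn)
      have e : dt (C - B) (A - B) + dt (B - A) (C - A) = dt (B - A) (B - A) := by
        simp [dt]; ring
      linarith
    obtain ⟨V, h2, h3⟩ := scal_exists_acute (A := B) (B := C) (C := A) (by rwa [cr_rot]) h1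
    exact ⟨V, h2, h3.rot⟩

end Pool.Agent.P.MP_fb3fae_co
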