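import Pool.Agent.P.MP_fb3fae_co.Scal

/-- For every nondegenerate triangle `A B C` in Euclidean 3-space there is a convex polyhedron
(convex hull of a finite set, with nonempty interior) all of whose 2-dimensional faces are images
of the triangle under isometries of space. -/
theorem Pool.Agent.P.MP_fb3fae_co.VariantAllTriangles.result
    (A B C : EuclideanSpace ℝ (Fin 3)) (hT : AffineIndependent ℝ ![A, B, C]) :
    ∃ V : Finset (EuclideanSpace ℝ (Fin 3)),
      (interior (convexHull ℝ (V : Set (EuclideanSpace ℝ (Fin 3))))).Nonempty ∧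
      ∀ F : Set (EuclideanSpace ℝ (Fin 3)),
        IsExposed ℝ (convexHull ℝ (V : Set (EuclideanSpace ℝ (Fin 3)))) F →
        Module.finrank ℝ (vectorSpan ℝ F) = 2 →
        ∃ φ : EuclideanSpace ℝ (Fin 3) ≃ᵢ EuclideanSpace ℝ (Fin 3),
          F = φ '' convexHull ℝ {A, B, C} := by
  open Pool.Agent.P.MP_fb3fae_co in
  obtain ⟨V, h1, h2⟩ := scal_exists (cr_ne_zero_of_affineIndependent hT)
  refine ⟨V, h1, fun F hF hd => ?_⟩
  obtain ⟨X, Y, Z, e, d1, d2, d3⟩ := h2 F hF hd
  obtain ⟨φ, rfl, rfl, rfl⟩ := Pool.Agent.P.MP_fb3fae_co.exists_isometry d1 d2 d3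
  exact ⟨φ, by rw [e, Pool.Agent.P.MP_fb3fae_co.image_tri]⟩
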